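import Mathlib

set_option autoImplicit false

namespace Pool.Agent.Helper47.Roe

open Finset

lemma eventually_pow_lt_factorial (C : ℕ) : ∃ N0 : ℕ, ∀ n ≥ N0, C ^ (n + 1) < (n + 1).factorial := by
  have h := FloorSemiring.tendsto_pow_div_factorial_atTop (K := ℝ) (C : ℝ)
  have h1 : ∀ᶠ n : ℕ in Filter.atTop, (C : ℝ) ^ n / n.factorial < 1 :=
    h.eventually_lt_const one_pos
  obtain ⟨N, hN⟩ := Filter.eventually_atTop.1 h1
  refine ⟨N, fun n hn => ?_⟩
  have h2 := hN (n + 1) (by omega)
  rw [div_lt_one (by positivity)] at h2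
  exact_mod_cast h2

/-- For a finite subset `B` of a group there are permutations `σ` of `{0,...,n}` such that the
graph with edges `i ~ i+1`, `i ~ σ i` has no `B`-Lipschitz `K`-to-one map to the group. -/
lemma counting {Λ : Type*} [Group Λ] (B : Finset Λ) (K : ℕ) :
    ∃ N0 : ℕ, ∀ n ≥ N0, ∃ σ : Equiv.Perm (Fin (n + 1)), ∀ g : Fin (n + 1) → Λ, g 0 = 1 →
      (∀ i : Fin n, g i.succ * (g i.castSucc)⁻¹ ∈ B) →
      (∀ i, g (σ i) * (g i)⁻¹ ∈ B) →
      (∀ i, Set.ncard {j | g j = g i} ≤ K) → False := by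
  classical
  obtain ⟨N0, hN0⟩ := eventually_pow_lt_factorial ((B.card + 1) * (K * B.card + 1))
  refine ⟨N0, fun n hn => ?_⟩
  by_contra hcon
  push Not at hcon
  choose g hg0 hgs hgσ hgK using hcon
  set m := K * B.card with hm
  -- neighbours
  let J : (Fin (n + 1) → Λ) → Fin (n + 1) → Finset (Fin (n + 1)) :=
    fun g i => univ.filter (fun j => g j * (g i)⁻¹ ∈ B)
  have hJ : ∀ σ i, (J (g σ) i).card ≤ m := by
    intro σ i
    have h1 : J (g σ) i ⊆ B.biUnion (fun b => univ.filter (fun j => g σ j = b * g σ i)) := by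
      intro j hj
      rw [mem_filter] at hj
      rw [mem_biUnion]
      exact ⟨_, hj.2, by simp⟩
    refine (card_le_card h1).trans ((card_biUnion_le).trans ?_)
    rw [hm, mul_comm]
    refine (sum_le_card_nsmul _ _ K ?_).trans (by simp)
    intro b _
    by_cases hne : (univ.filter (fun j => g σ j = b * g σ i)).Nonempty
    · obtain ⟨j0, hj0⟩ := hne
      rw [mem_filter] at hj0
      have h2 := (hgK σ).1 j0
      rw [← hj0.2]
      rw [Set.ncard_eq_toFinset_card'] at h2
      refine le_trans (le_of_eq ?_) h2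
      congr 1
      ext j
      simp
    · rw [not_nonempty_iff_eq_empty] at hne
      rw [hne]; simp
  have hmpos : 0 < m := by
    refine lt_of_lt_of_le ?_ (hJ 1 0)
    refine card_pos.2 ⟨(1 : Equiv.Perm (Fin (n + 1))) 0, ?_⟩
    rw [mem_filter]
    exact ⟨mem_univ _, hgσ 1 0⟩
  -- enumerations
  have henum : ∀ (h : Fin (n + 1) → Λ) (i : Fin (n + 1)), ∃ r : Fin (n + 1) → Fin m,
      (J h i).card ≤ m → Set.InjOn r (J h i : Set (Fin (n + 1))) := by
    intro h i
    by_cases hc : (J h i).card ≤ m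
    · have : Nonempty ((J h i) ↪ Fin m) := by
        rw [Function.Embedding.nonempty_iff_card_le]
        simpa using hc
      obtain ⟨e⟩ := this
      refine ⟨fun j => if hj : j ∈ J h i then e ⟨j, hj⟩ else ⟨0, hmpos⟩, fun _ => ?_⟩
      intro a ha b hb hab
      have ha' : a ∈ J h i := ha
      have hb' : b ∈ J h i := hb
      simp only [ha', hb', dif_pos] at hab
      have := e.injective hab
      exact congrArg Subtype.val this
    · exact ⟨fun _ => ⟨0, hmpos⟩, fun h => absurd h hc⟩
  choose r hr using henum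
  let F : Equiv.Perm (Fin (n + 1)) → (Fin n → B) × (Fin (n + 1) → Fin m) :=
    fun σ => (fun i => ⟨_, hgs σ i⟩, fun i => r (g σ) i (σ i))
  have hF : Function.Injective F := by
    intro σ τ hστ
    have h1 : ∀ i : Fin n, g σ i.succ * (g σ i.castSucc)⁻¹ = g τ i.succ * (g τ i.castSucc)⁻¹ := by
      intro i
      have := congrFun (congrArg Prod.fst hστ) i
      exact congrArg Subtype.val this
    have h2 : g σ = g τ := by
      funext i
      induction i using Fin.induction with
      | zero => rw [hg0, hg0]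
      | succ i ih =>
        have := h1 i
        rw [ih] at this
        exact mul_right_cancel this
    ext i : 1
    have h3 : r (g σ) i (σ i) = r (g τ) i (τ i) := congrFun (congrArg Prod.snd hστ) i
    rw [← h2] at h3
    refine hr (g σ) i (hJ σ i) ?_ ?_ h3
    · simp only [J, coe_filter, mem_univ, true_and, Set.mem_ofPred_eq]
      exact hgσ σ i
    · simp only [J, coe_filter, mem_univ, true_and, Set.mem_ofPred_eq]
      rw [h2]
      exact hgσ τ i
  have hcard := Fintype.card_le_of_injective F hF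
  rw [Fintype.card_perm, Fintype.card_prod, Fintype.card_fun, Fintype.card_fun] at hcard
  simp only [Fintype.card_fin, Fintype.card_coe] at hcard
  have h4 := hN0 n hn
  have h5 : B.card ^ n * m ^ (n + 1) ≤ ((B.card + 1) * (m + 1)) ^ (n + 1) := by
    have e1 : B.card ^ n ≤ (B.card + 1) ^ (n + 1) :=
      (Nat.pow_le_pow_left (Nat.le_succ _) n).trans
        (Nat.pow_le_pow_right (Nat.succ_pos _) (Nat.le_succ _))
    have e2 : m ^ (n + 1) ≤ (m + 1) ^ (n + 1) := Nat.pow_le_pow_left (Nat.le_succ _) _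
    calc B.card ^ n * m ^ (n + 1) ≤ (B.card + 1) ^ (n + 1) * (m + 1) ^ (n + 1) :=
          Nat.mul_le_mul e1 e2
      _ = _ := (Nat.mul_pow _ _ _).symm
  exact absurd (lt_of_lt_of_le h4 hcard) (not_lt.2 h5)

end Pool.Agent.Helper47.Roe
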