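import Mathlib

set_option autoImplicit false

namespace Pool.Agent.Helper47.Roe

open scoped InnerProductSpace
open Finset

section Proj

variable {H : Type*} [NormedAddCommGroup H] [InnerProductSpace ℂ H]

/-- orthogonal projections, as continuous linear maps -/
structure IsProj (P : H →L[ℂ] H) : Prop where
  idem : ∀ v, P (P v) = P v
  sym : ∀ v w, ⟪P v, w⟫_ℂ = ⟪v, P w⟫_ℂ

lemma IsProj.inner_self {P : H →L[ℂ] H} (hP : IsProj P) (v : H) :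
    ⟪P v, v⟫_ℂ = (‖P v‖ : ℂ) ^ 2 := by
  have h := hP.sym (P v) v
  rw [hP.idem] at h
  rw [h]
  exact inner_self_eq_norm_sq_to_K _

lemma IsProj.inner_self' {P : H →L[ℂ] H} (hP : IsProj P) (v : H) :
    ⟪v, P v⟫_ℂ = (‖P v‖ : ℂ) ^ 2 := by
  rw [← hP.sym, hP.inner_self]

lemma IsProj.re_inner {P : H →L[ℂ] H} (hP : IsProj P) (v : H) :
    (⟪P v, v⟫_ℂ).re = ‖P v‖ ^ 2 := by
  rw [hP.inner_self]
  norm_cast

/-- pythagoras -/
lemma IsProj.norm_compl {P : H →L[ℂ] H} (hP : IsProj P) (v : H) :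
    ‖v - P v‖ ^ 2 = ‖v‖ ^ 2 - ‖P v‖ ^ 2 := by
  have h1 := @norm_sub_sq ℂ H _ _ _ v (P v)
  rw [h1, hP.inner_self']
  have : RCLike.re ((‖P v‖ : ℂ) ^ 2) = ‖P v‖ ^ 2 := by
    norm_cast
  rw [this]
  ring

lemma IsProj.norm_le {P : H →L[ℂ] H} (hP : IsProj P) (v : H) : ‖P v‖ ≤ ‖v‖ := by
  have h := hP.norm_compl v
  have h2 : 0 ≤ ‖v - P v‖ ^ 2 := sq_nonneg _
  exact (sq_le_sq₀ (norm_nonneg _) (norm_nonneg _)).1 (by linarith)

/-- pair inequality on the part where `PRP = κP`. -/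
lemma pair_ineq_free {P R : H →L[ℂ] H} (hP : IsProj P) (hR : IsProj R) {ε : ℝ} (hε0 : 0 ≤ ε)
    (hε1 : ε ≤ 1) (w : H) (hRPR : R (P (R w)) = ((ε : ℂ) ^ 2) • R w) :
    0 ≤ 2 * (⟪w - P w, w - R w⟫_ℂ).re + ε * (‖w - P w‖ ^ 2 + ‖w - R w‖ ^ 2) := by
  have hPR : ‖P (R w)‖ ^ 2 = ε ^ 2 * ‖R w‖ ^ 2 := by
    have h1 := hP.re_inner (R w)
    have h2 : ⟪P (R w), R w⟫_ℂ = ⟪R (P (R w)), w⟫_ℂ := by rw [hR.sym]
    rw [h2, hRPR] at h1
    rw [← h1, inner_smul_left, hR.inner_self]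
    have : (starRingEnd ℂ) ((ε : ℂ) ^ 2) = ((ε ^ 2 : ℝ) : ℂ) := by
      rw [map_pow, Complex.conj_ofReal]; push_cast; ring
    rw [this]
    norm_cast
  have hPRn : ‖P (R w)‖ = ε * ‖R w‖ := by
    have : ‖P (R w)‖ ^ 2 = (ε * ‖R w‖) ^ 2 := by rw [hPR]; ring
    exact (sq_eq_sq₀ (norm_nonneg _) (mul_nonneg hε0 (norm_nonneg _))).1 this
  -- c = Re <Pw,Rw>
  have hc : |(⟪P w, R w⟫_ℂ).re| ≤ ε * (‖P w‖ * ‖R w‖) := by
    have h1 : ⟪P w, R w⟫_ℂ = ⟪P w, P (R w)⟫_ℂ := by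
      rw [← hP.sym, hP.idem]
    rw [h1]
    calc |(⟪P w, P (R w)⟫_ℂ).re| ≤ ‖⟪P w, P (R w)⟫_ℂ‖ := Complex.abs_re_le_norm _
      _ ≤ ‖P w‖ * ‖P (R w)‖ := norm_inner_le_norm _ _
      _ = ε * (‖P w‖ * ‖R w‖) := by rw [hPRn]; ring
  set n := ‖w‖ ^ 2 with hn
  set a := ‖P w‖ ^ 2 with ha
  set b := ‖R w‖ ^ 2 with hb
  set c := (⟪P w, R w⟫_ℂ).re with hcdef
  have hc2 : 2 * c ≤ ε * (a + b) := by
    have h1 := (abs_le.1 hc).2
    have h2 : 2 * (‖P w‖ * ‖R w‖) ≤ a + b := by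
      rw [ha, hb]; nlinarith [sq_nonneg (‖P w‖ - ‖R w‖)]
    nlinarith
  have e1 : (⟪w - P w, w - R w⟫_ℂ).re = n - a - b + c := by
    rw [inner_sub_left, inner_sub_right, inner_sub_right, hP.inner_self, hR.inner_self',
      inner_self_eq_norm_sq_to_K]
    simp only [Complex.sub_re]
    rw [← hcdef, ha, hb, hn]
    have k1 : ((‖w‖ : ℂ) ^ 2).re = ‖w‖ ^ 2 := by rw [← Complex.ofReal_pow, Complex.ofReal_re]
    have k2 : ((‖P w‖ : ℂ) ^ 2).re = ‖P w‖ ^ 2 := by rw [← Complex.ofReal_pow, Complex.ofReal_re]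
    have k3 : ((‖R w‖ : ℂ) ^ 2).re = ‖R w‖ ^ 2 := by rw [← Complex.ofReal_pow, Complex.ofReal_re]
    change ((‖w‖ : ℂ) ^ 2).re - ((‖R w‖ : ℂ) ^ 2).re - (((‖P w‖ : ℂ) ^ 2).re - c) = _
    rw [k1, k2, k3]
    ring
  have e2 : 0 ≤ (1 + ε) ^ 2 * n - 2 * (1 + ε) * (a + b) + (a + b + 2 * c) := by
    have h1 : ‖((1 + ε : ℝ) : ℂ) • w - (P w + R w)‖ ^ 2 =
        (1 + ε) ^ 2 * n - 2 * (1 + ε) * (a + b) + (a + b + 2 * c) := by
      rw [@norm_sub_sq ℂ]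
      rw [norm_smul, inner_smul_left, inner_add_right, hP.inner_self', hR.inner_self']
      have h3 := @norm_add_sq ℂ H _ _ _ (P w) (R w)
      rw [h3]
      have h4 : (starRingEnd ℂ) (((1 + ε : ℝ) : ℂ)) = ((1 + ε : ℝ) : ℂ) := Complex.conj_ofReal _
      rw [h4]
      have h5 : RCLike.re (((1 + ε : ℝ) : ℂ) * ((‖P w‖ : ℂ) ^ 2 + (‖R w‖ : ℂ) ^ 2)) =
          (1 + ε) * (a + b) := by
        rw [ha, hb]; norm_cast
      rw [h5]
      have h6 : ‖((1 + ε : ℝ) : ℂ)‖ = 1 + ε := by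
        rw [Complex.norm_real, Real.norm_eq_abs, abs_of_nonneg (by linarith)]
      rw [h6]
      have h7 : RCLike.re (⟪P w, R w⟫_ℂ) = c := rfl
      rw [h7, hn, ha, hb]
      ring
    rw [← h1]; exact sq_nonneg _
  rw [e1, hP.norm_compl, hR.norm_compl, ← hn, ← ha, ← hb]
  have h1e : 0 < 1 + ε := by linarith
  have key : (1 + ε) * (2 * (n - a - b + c) + ε * (n - a + (n - b))) =
      2 * ((1 + ε) ^ 2 * n - 2 * (1 + ε) * (a + b) + (a + b + 2 * c)) +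
      (1 - ε) * (ε * (a + b) - 2 * c) := by ring
  have h8 : 0 ≤ (1 + ε) * (2 * (n - a - b + c) + ε * (n - a + (n - b))) := by
    rw [key]
    have := mul_nonneg (show 0 ≤ 1 - ε by linarith) (show 0 ≤ ε * (a + b) - 2 * c by linarith)
    linarith
  exact nonneg_of_mul_nonneg_right h8 h1e

/-- pair inequality where the projections commute -/
lemma pair_ineq_comm {P R : H →L[ℂ] H} (hP : IsProj P) (hR : IsProj R) (w : H)
    (hcomm : P (R w) = R (P w)) :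
    0 ≤ (⟪w - P w, w - R w⟫_ℂ).re := by
  -- ⟪w - P w, w - R w⟫ = ‖w - P w - R (w - P w)‖^2
  set u := w - P w with hu
  have h1 : ⟪u, w - R w⟫_ℂ = ⟪u - R u, u - R u⟫_ℂ := by
    have hPu : ∀ x, ⟪u, x⟫_ℂ = ⟪u, x - P x⟫_ℂ := by
      intro x
      rw [inner_sub_right, ← hP.sym]
      have : P u = 0 := by rw [hu, map_sub, hP.idem, sub_self]
      rw [this, inner_zero_left, sub_zero]
    rw [hPu (w - R w)]
    have h2 : w - R w - P (w - R w) = u - R u := by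
      rw [hu, map_sub, map_sub, hcomm]
      abel
    rw [h2]
    have h3 : ⟪R u, u - R u⟫_ℂ = 0 := by
      rw [hR.sym, map_sub, hR.idem, sub_self, inner_zero_right]
    rw [inner_sub_left u (R u), h3, sub_zero]
  rw [h1, inner_self_eq_norm_sq_to_K]
  norm_cast
  exact sq_nonneg _

/-- full pair inequality -/
lemma pair_ineq {P R Z : H →L[ℂ] H} (hP : IsProj P) (hR : IsProj R) (hZ : IsProj Z) {ε : ℝ}
    (hε0 : 0 ≤ ε) (hε1 : ε ≤ 1)
    (hPZ : ∀ v, P (Z v) = Z (P v)) (hRZ : ∀ v, R (Z v) = Z (R v))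
    (hcomm : ∀ v, P (R (Z v)) = R (P (Z v)))
    (hfree : ∀ v, Z v = 0 → R (P (R v)) = ((ε : ℂ) ^ 2) • R v) (v : H) :
    0 ≤ 2 * (⟪v - P v, v - R v⟫_ℂ).re + ε * (‖v - P v‖ ^ 2 + ‖v - R v‖ ^ 2) := by
  set v1 := Z v with hv1
  set v2 := v - Z v with hv2
  have hZv2 : Z v2 = 0 := by rw [hv2, map_sub, hZ.idem, sub_self]
  have hZ1 : ∀ w, Z w = w → ∀ u, Z u = 0 → ⟪w, u⟫_ℂ = 0 ∧ ⟪u, w⟫_ℂ = 0 := by
    intro w hw u hu
    constructor
    · rw [← hw, hZ.sym, hu, inner_zero_right]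
    · rw [← hw, ← hZ.sym, hu, inner_zero_left]
  have hvsum : v = v1 + v2 := by rw [hv1, hv2]; abel
  -- D = 1 - P etc
  have hDP1 : Z (v1 - P v1) = v1 - P v1 := by
    rw [map_sub, ← hPZ, hv1, hZ.idem]
  have hDR1 : Z (v1 - R v1) = v1 - R v1 := by
    rw [map_sub, ← hRZ, hv1, hZ.idem]
  have hDP2 : Z (v2 - P v2) = 0 := by
    rw [map_sub, ← hPZ, hZv2, map_zero, sub_zero]
  have hDR2 : Z (v2 - R v2) = 0 := by
    rw [map_sub, ← hRZ, hZv2, map_zero, sub_zero]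
  have e1 : v - P v = (v1 - P v1) + (v2 - P v2) := by
    conv_lhs => rw [hvsum]
    rw [map_add]; abel
  have e2 : v - R v = (v1 - R v1) + (v2 - R v2) := by
    conv_lhs => rw [hvsum]
    rw [map_add]; abel
  have i1 : (⟪v - P v, v - R v⟫_ℂ).re =
      (⟪v1 - P v1, v1 - R v1⟫_ℂ).re + (⟪v2 - P v2, v2 - R v2⟫_ℂ).re := by
    rw [e1, e2, inner_add_left, inner_add_right, inner_add_right,
      (hZ1 _ hDP1 _ hDR2).1, (hZ1 _ hDR1 _ hDP2).2]
    rw [add_zero, zero_add, Complex.add_re]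
  have i2 : ‖v - P v‖ ^ 2 = ‖v1 - P v1‖ ^ 2 + ‖v2 - P v2‖ ^ 2 := by
    rw [e1, @norm_add_sq ℂ, (hZ1 _ hDP1 _ hDP2).1]
    simp
  have i3 : ‖v - R v‖ ^ 2 = ‖v1 - R v1‖ ^ 2 + ‖v2 - R v2‖ ^ 2 := by
    rw [e2, @norm_add_sq ℂ, (hZ1 _ hDR1 _ hDR2).1]
    simp
  have j1 := pair_ineq_comm hP hR v1 (hcomm v)
  have j2 := pair_ineq_free hP hR hε0 hε1 v2 (hfree v2 hZv2)
  rw [i1, i2, i3]
  have k1 : 0 ≤ ε * (‖v1 - P v1‖ ^ 2 + ‖v1 - R v1‖ ^ 2) := by positivity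
  nlinarith

/-- three projections -/
lemma three_gap {P : Fin 3 → (H →L[ℂ] H)} (hP : ∀ i, IsProj (P i)) {ε : ℝ}
    (hε1 : 2 * ε < 1)
    (hpair : ∀ i j, i ≠ j → ∀ v, 0 ≤ 2 * (⟪v - P i v, v - P j v⟫_ℂ).re +
      ε * (‖v - P i v‖ ^ 2 + ‖v - P j v‖ ^ 2)) [CompleteSpace H]
    (v : H) (hv : ∀ k, (∀ i, P i k = k) → ⟪k, v⟫_ℂ = 0) :
    (1 - 2 * ε) * ‖v‖ ^ 2 ≤ ∑ i, ‖v - P i v‖ ^ 2 := by
  set c := 1 - 2 * ε with hc
  have hc0 : 0 < c := by linarith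
  let D : Fin 3 → (H →L[ℂ] H) := fun i => 1 - P i
  have hD : ∀ i, IsProj (D i) := by
    intro i
    refine ⟨fun v => ?_, fun v w => ?_⟩
    · show (v - P i v) - P i (v - P i v) = v - P i v
      rw [map_sub, (hP i).idem, sub_self, sub_zero]
    · show ⟪v - P i v, w⟫_ℂ = ⟪v, w - P i w⟫_ℂ
      rw [inner_sub_left, inner_sub_right, (hP i).sym]
  let Δ : H →L[ℂ] H := ∑ i, D i
  have hΔ : ∀ v, Δ v = ∑ i, D i v := fun v => by simp [Δ]
  let q : H → ℝ := fun v => ∑ i, ‖D i v‖ ^ 2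
  have hq : ∀ v, q v = ∑ i, ‖v - P i v‖ ^ 2 := fun v => rfl
  have hq0 : ∀ v, 0 ≤ q v := fun v => Finset.sum_nonneg (fun i _ => sq_nonneg _)
  -- (i)
  have h1 : ∀ v, c * q v ≤ ‖Δ v‖ ^ 2 := by
    intro v
    have e01 := hpair 0 1 (by decide) v
    have e02 := hpair 0 2 (by decide) v
    have e12 := hpair 1 2 (by decide) v
    have hs : ‖Δ v‖ ^ 2 = q v + 2 * ((⟪D 0 v, D 1 v⟫_ℂ).re + (⟪D 0 v, D 2 v⟫_ℂ).re +
        (⟪D 1 v, D 2 v⟫_ℂ).re) := by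
      rw [hΔ, Fin.sum_univ_three, @norm_add_sq ℂ, @norm_add_sq ℂ, inner_add_left]
      simp only [q, Fin.sum_univ_three]
      rw [map_add]
      have r1 : ∀ z : ℂ, RCLike.re z = z.re := fun z => rfl
      rw [r1, r1, r1]
      ring
    rw [hs]
    have hq3 : q v = ‖D 0 v‖ ^ 2 + ‖D 1 v‖ ^ 2 + ‖D 2 v‖ ^ 2 := by
      simp only [q, Fin.sum_univ_three]
    have f01 : 0 ≤ 2 * (⟪D 0 v, D 1 v⟫_ℂ).re + ε * (‖D 0 v‖ ^ 2 + ‖D 1 v‖ ^ 2) := e01
    have f02 : 0 ≤ 2 * (⟪D 0 v, D 2 v⟫_ℂ).re + ε * (‖D 0 v‖ ^ 2 + ‖D 2 v‖ ^ 2) := e02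
    have f12 : 0 ≤ 2 * (⟪D 1 v, D 2 v⟫_ℂ).re + ε * (‖D 1 v‖ ^ 2 + ‖D 2 v‖ ^ 2) := e12
    rw [hc, hq3]
    linarith
  -- symmetric
  have hΔsym : ∀ u v, ⟪Δ u, v⟫_ℂ = ⟪u, Δ v⟫_ℂ := by
    intro u v
    rw [hΔ, hΔ, sum_inner, inner_sum]
    exact Finset.sum_congr rfl (fun i _ => (hD i).sym u v)
  -- (ii)
  have h2 : ∀ u v, ‖⟪Δ u, v⟫_ℂ‖ ^ 2 ≤ q u * q v := by
    intro u v
    have e1 : ⟪Δ u, v⟫_ℂ = ∑ i, ⟪D i u, D i v⟫_ℂ := by
      rw [hΔ, sum_inner]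
      refine Finset.sum_congr rfl (fun i _ => ?_)
      rw [← (hD i).sym, (hD i).idem]
    have e2 : ‖⟪Δ u, v⟫_ℂ‖ ≤ ∑ i, ‖D i u‖ * ‖D i v‖ := by
      rw [e1]
      exact (norm_sum_le _ _).trans (Finset.sum_le_sum (fun i _ => norm_inner_le_norm _ _))
    have e3 : (∑ i, ‖D i u‖ * ‖D i v‖) ^ 2 ≤ q u * q v :=
      Finset.sum_mul_sq_le_sq_mul_sq _ _ _
    calc ‖⟪Δ u, v⟫_ℂ‖ ^ 2 ≤ (∑ i, ‖D i u‖ * ‖D i v‖) ^ 2 :=
          pow_le_pow_left₀ (norm_nonneg _) e2 2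
      _ ≤ _ := e3
  -- (iii)
  have h3 : ∀ u, c * ‖Δ u‖ ^ 2 ≤ q (Δ u) := by
    intro u
    have e1 := h2 u (Δ u)
    have e2 : ‖⟪Δ u, Δ u⟫_ℂ‖ = ‖Δ u‖ ^ 2 := by
      rw [inner_self_eq_norm_sq_to_K, norm_pow]
      simp
    rw [e2] at e1
    rcases eq_or_ne (Δ u) 0 with h0 | h0
    · rw [h0]; simpa using hq0 0
    · have hpos : 0 < ‖Δ u‖ ^ 2 := by
        have := norm_pos_iff.2 h0
        positivity
      have e3 := h1 u
      have e4 : c * (‖Δ u‖ ^ 2) ^ 2 ≤ ‖Δ u‖ ^ 2 * q (Δ u) := by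
        calc c * (‖Δ u‖ ^ 2) ^ 2 ≤ c * (q u * q (Δ u)) := mul_le_mul_of_nonneg_left e1 hc0.le
          _ = (c * q u) * q (Δ u) := by ring
          _ ≤ ‖Δ u‖ ^ 2 * q (Δ u) := mul_le_mul_of_nonneg_right e3 (hq0 _)
      have e5 : ‖Δ u‖ ^ 2 * (c * ‖Δ u‖ ^ 2) ≤ ‖Δ u‖ ^ 2 * q (Δ u) := by
        calc _ = c * (‖Δ u‖ ^ 2) ^ 2 := by ring
          _ ≤ _ := e4
      exact le_of_mul_le_mul_left e5 hpos
  -- (iv)
  have hclosed : IsClosed {v : H | c * ‖v‖ ^ 2 ≤ q v} := by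
    refine isClosed_le (by fun_prop) ?_
    simp only [q]
    fun_prop
  have h4 : ∀ v ∈ closure (Set.range Δ), c * ‖v‖ ^ 2 ≤ q v := by
    intro v hv
    have : closure (Set.range Δ) ⊆ {v : H | c * ‖v‖ ^ 2 ≤ q v} := by
      refine closure_minimal ?_ hclosed
      rintro _ ⟨u, rfl⟩
      exact h3 u
    exact this hv
  -- (v)
  have h5 : v ∈ closure (Set.range Δ) := by
    let R : Submodule ℂ H := LinearMap.range (Δ : H →ₗ[ℂ] H)
    have hRK : ∀ w ∈ Rᗮ, ∀ i, P i w = w := by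
      intro w hw i
      have hΔw : Δ w = 0 := by
        have : ∀ u, ⟪u, Δ w⟫_ℂ = 0 := by
          intro u
          rw [← hΔsym]
          exact (Submodule.mem_orthogonal R w).1 hw _ ⟨u, rfl⟩
        have := this (Δ w)
        exact inner_self_eq_zero.1 this
      have hqw : q w = 0 := by
        have := h1 w
        rw [hΔw, norm_zero] at this
        have h0 := hq0 w
        nlinarith
      have : ‖D i w‖ ^ 2 = 0 := by
        have := (Finset.sum_eq_zero_iff_of_nonneg (fun i _ => sq_nonneg _)).1 hqw i (Finset.mem_univ i)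
        exact this
      have h6 : w - P i w = 0 := by
        have h7 : ‖D i w‖ = 0 := by
          exact pow_eq_zero_iff (two_ne_zero) |>.1 this
        exact norm_eq_zero.1 h7
      exact (sub_eq_zero.1 h6).symm
    have hvR : v ∈ Rᗮᗮ := by
      rw [Submodule.mem_orthogonal]
      intro w hw
      exact hv w (hRK w hw)
    rw [Submodule.orthogonal_orthogonal_eq_closure] at hvR
    exact hvR
  exact h4 v h5

/-- powers of the average of the three projections converge to the projection on the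
common fixed space. -/
lemma three_conv {P : Fin 3 → (H →L[ℂ] H)} (hP : ∀ i, IsProj (P i)) {ε : ℝ}
    (hε1 : 2 * ε < 1) (hε2 : -1 < ε)
    (hpair : ∀ i j, i ≠ j → ∀ v, 0 ≤ 2 * (⟪v - P i v, v - P j v⟫_ℂ).re +
      ε * (‖v - P i v‖ ^ 2 + ‖v - P j v‖ ^ 2)) [CompleteSpace H]
    (E : H →L[ℂ] H) (hE : IsProj E) (hE1 : ∀ v i, P i (E v) = E v)
    (hE2 : ∀ k, (∀ i, P i k = k) → E k = k) :
    ∃ μ : ℝ, 0 ≤ μ ∧ μ < 1 ∧ ∀ n : ℕ,
      ‖((3 : ℂ)⁻¹ • ∑ i, P i) ^ n - E‖ ≤ μ ^ n := by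
  set T : H →L[ℂ] H := (3 : ℂ)⁻¹ • ∑ i, P i with hT
  have hTv : ∀ v, T v = (3 : ℂ)⁻¹ • ∑ i, P i v := fun v => by simp [hT]
  set μ := Real.sqrt (1 - (1 - 2 * ε) / 3) with hμ
  have hμ1 : 0 ≤ 1 - (1 - 2 * ε) / 3 := by linarith
  have hμ0 : 0 ≤ μ := Real.sqrt_nonneg _
  have hμlt : μ < 1 := by
    rw [hμ, Real.sqrt_lt' one_pos]
    linarith
  have hμsq : μ ^ 2 = 1 - (1 - 2 * ε) / 3 := Real.sq_sqrt hμ1
  refine ⟨μ, hμ0, hμlt, ?_⟩
  -- contraction on the complement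
  have hcontr : ∀ v, (∀ k, (∀ i, P i k = k) → ⟪k, v⟫_ℂ = 0) → ‖T v‖ ≤ μ * ‖v‖ := by
    intro v hv
    have h1 := three_gap hP hε1 hpair v hv
    have h2 : ∀ i, ‖v - P i v‖ ^ 2 = ‖v‖ ^ 2 - ‖P i v‖ ^ 2 := fun i => (hP i).norm_compl v
    have h3 : ‖T v‖ ^ 2 ≤ (1 / 3) * ∑ i, ‖P i v‖ ^ 2 := by
      rw [hTv, norm_smul, mul_pow]
      have h4 : ‖(3 : ℂ)⁻¹‖ ^ 2 = 1 / 9 := by
        rw [norm_inv]; norm_num
      rw [h4]
      have h5 : ‖∑ i, P i v‖ ≤ ∑ i, ‖P i v‖ := norm_sum_le _ _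
      have h6 : (∑ i, ‖P i v‖) ^ 2 ≤ 3 * ∑ i, ‖P i v‖ ^ 2 := by
        have := @sq_sum_le_card_mul_sum_sq (Fin 3) ℝ _ _ _ _ Finset.univ (fun i => ‖P i v‖)
        simpa using this
      have h7 : ‖∑ i, P i v‖ ^ 2 ≤ (∑ i, ‖P i v‖) ^ 2 :=
        pow_le_pow_left₀ (norm_nonneg _) h5 2
      linarith
    have h8 : ∑ i, ‖P i v‖ ^ 2 = 3 * ‖v‖ ^ 2 - ∑ i, ‖v - P i v‖ ^ 2 := by
      simp_rw [h2]
      simp [Finset.sum_sub_distrib]
    have h9 : ‖T v‖ ^ 2 ≤ (μ * ‖v‖) ^ 2 := by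
      rw [mul_pow, hμsq]
      rw [h8] at h3
      linarith
    exact (sq_le_sq₀ (norm_nonneg _) (mul_nonneg hμ0 (norm_nonneg _))).1 h9
  have hTk : ∀ k, (∀ i, P i k = k) → T k = k := by
    intro k hk
    rw [hTv]
    simp only [hk]
    rw [Finset.sum_const, Finset.card_univ, Fintype.card_fin, ← Nat.cast_smul_eq_nsmul ℂ, smul_smul]
    norm_num
  have hTsym : ∀ v w, ⟪T v, w⟫_ℂ = ⟪v, T w⟫_ℂ := by
    intro v w
    rw [hTv, hTv, inner_smul_left, inner_smul_right, sum_inner, inner_sum]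
    congr 1
    · rw [map_inv₀, map_ofNat]
    · exact Finset.sum_congr rfl (fun i _ => (hP i).sym v w)
  have hperp : ∀ v, (∀ k, (∀ i, P i k = k) → ⟪k, v⟫_ℂ = 0) →
      (∀ k, (∀ i, P i k = k) → ⟪k, T v⟫_ℂ = 0) := by
    intro v hv k hk
    rw [← hTsym, hTk k hk]
    exact hv k hk
  intro n
  refine ContinuousLinearMap.opNorm_le_bound _ (pow_nonneg hμ0 n) ?_
  intro v
  have hvE : ∀ k, (∀ i, P i k = k) → ⟪k, v - E v⟫_ℂ = 0 := by
    intro k hk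
    rw [inner_sub_right, ← hE.sym, hE2 k hk, sub_self]
  have hpow : ∀ n : ℕ, ∀ u, (∀ k, (∀ i, P i k = k) → ⟪k, u⟫_ℂ = 0) →
      ‖(T ^ n) u‖ ≤ μ ^ n * ‖u‖ := by
    intro n
    induction n with
    | zero => intro u _; simp
    | succ n ih =>
      intro u hu
      rw [pow_succ, mul_apply_eq_comp]
      refine (ih (T u) (hperp u hu)).trans ?_
      calc μ ^ n * ‖T u‖ ≤ μ ^ n * (μ * ‖u‖) :=
            mul_le_mul_of_nonneg_left (hcontr u hu) (pow_nonneg hμ0 n)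
        _ = μ ^ (n + 1) * ‖u‖ := by ring
  have hTE : ∀ n : ℕ, (T ^ n) (E v) = E v := by
    intro n
    induction n with
    | zero => simp
    | succ n ih =>
      rw [pow_succ, mul_apply_eq_comp, hTk (E v) (hE1 v), ih]
  have h1 : (T ^ n - E) v = (T ^ n) (v - E v) := by
    rw [map_sub, hTE n]; rfl
  rw [h1]
  refine (hpow n _ hvE).trans ?_
  have h2 : ‖v - E v‖ ≤ ‖v‖ := by
    have h3 := hE.norm_compl v
    have h4 : 0 ≤ ‖E v‖ ^ 2 := sq_nonneg _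
    exact (sq_le_sq₀ (norm_nonneg _) (norm_nonneg _)).1 (by linarith)
  exact mul_le_mul_of_nonneg_left h2 (pow_nonneg hμ0 n)

end Proj

section Avg

variable {H : Type*} [NormedAddCommGroup H] [InnerProductSpace ℂ H] {G : Type*} [Group G]

/-- average over the powers of an element of order five -/
noncomputable def avg (ρ : G →* (H →L[ℂ] H)) (x : G) : H →L[ℂ] H :=
  (5 : ℂ)⁻¹ • ∑ a ∈ range 5, ρ (x ^ a)

lemma avg_apply (ρ : G →* (H →L[ℂ] H)) (x : G) (v : H) :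
    avg ρ x v = (5 : ℂ)⁻¹ • ∑ a ∈ range 5, ρ (x ^ a) v := by
  simp [avg]

lemma rho_rho (ρ : G →* (H →L[ℂ] H)) (g h : G) (v : H) : ρ g (ρ h v) = ρ (g * h) v := by
  rw [map_mul]; rfl

lemma sum_shift {M : Type*} [AddCommGroup M] (f : ℕ → M) (h : f 5 = f 0) :
    ∑ a ∈ range 5, f (a + 1) = ∑ a ∈ range 5, f a := by
  have h1 := Finset.sum_range_succ' f 5
  have h2 := Finset.sum_range_succ f 5
  rw [h2, h] at h1
  exact (add_right_cancel h1).symm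

lemma rho_avg (ρ : G →* (H →L[ℂ] H)) {x : G} (hx : x ^ 5 = 1) (v : H) :
    ρ x (avg ρ x v) = avg ρ x v := by
  rw [avg_apply, map_smul, map_sum]
  congr 1
  have : ∀ a : ℕ, ρ x (ρ (x ^ a) v) = (fun n => ρ (x ^ n) v) (a + 1) := by
    intro a
    show ρ x (ρ (x ^ a) v) = ρ (x ^ (a + 1)) v
    rw [pow_succ', map_mul]; rfl
  simp_rw [this]
  exact sum_shift (fun n => ρ (x ^ n) v) (by simp [hx])

lemma avg_rho (ρ : G →* (H →L[ℂ] H)) {x : G} (hx : x ^ 5 = 1) (v : H) :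
    avg ρ x (ρ x v) = avg ρ x v := by
  rw [avg_apply, avg_apply]
  congr 1
  have : ∀ a : ℕ, ρ (x ^ a) (ρ x v) = (fun n => ρ (x ^ n) v) (a + 1) := by
    intro a
    show ρ (x ^ a) (ρ x v) = ρ (x ^ (a + 1)) v
    rw [pow_succ, map_mul]; rfl
  simp_rw [this]
  exact sum_shift (fun n => ρ (x ^ n) v) (by simp [hx])

lemma rho_pow_fix (ρ : G →* (H →L[ℂ] H)) {x : G} {v : H} (h : ρ x v = v) (n : ℕ) :
    ρ (x ^ n) v = v := by
  induction n with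
  | zero => simp
  | succ n ih => rw [pow_succ, map_mul, mul_apply_eq_comp, h, ih]

lemma avg_fix (ρ : G →* (H →L[ℂ] H)) {x : G} {v : H} (h : ρ x v = v) : avg ρ x v = v := by
  rw [avg_apply]
  simp_rw [rho_pow_fix ρ h]
  rw [Finset.sum_const, Finset.card_range, ← Nat.cast_smul_eq_nsmul ℂ, smul_smul]
  norm_num

lemma avg_eq_iff (ρ : G →* (H →L[ℂ] H)) {x : G} (hx : x ^ 5 = 1) (v : H) :
    avg ρ x v = v ↔ ρ x v = v := by
  constructor
  · intro h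
    have := rho_avg ρ hx v
    rwa [h] at this
  · exact avg_fix ρ

lemma avg_isProj (ρ : G →* (H →L[ℂ] H)) (hρ : ∀ g v w, ⟪ρ g v, w⟫_ℂ = ⟪v, ρ g⁻¹ w⟫_ℂ)
    {x : G} (hx : x ^ 5 = 1) : IsProj (avg ρ x) := by
  refine ⟨fun v => avg_fix ρ (rho_avg ρ hx v), ?_⟩
  intro v w
  rw [avg_apply, avg_apply, inner_smul_left, inner_smul_right, sum_inner, inner_sum]
  congr 1
  · rw [map_inv₀, map_ofNat]
  · -- reindex
    have h1 : ∀ a ∈ range 5, ⟪ρ (x ^ a) v, w⟫_ℂ = (fun n => ⟪v, ρ (x ^ n) w⟫_ℂ) (5 - a) := by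
      intro a ha
      rw [hρ]
      show ⟪v, ρ (x ^ a)⁻¹ w⟫_ℂ = ⟪v, ρ (x ^ (5 - a)) w⟫_ℂ
      have : (x ^ a)⁻¹ = x ^ (5 - a) := by
        rw [inv_eq_iff_mul_eq_one, ← pow_add]
        have : a + (5 - a) = 5 := by have := Finset.mem_range.1 ha; omega
        rw [this, hx]
      rw [this]
    rw [Finset.sum_congr rfl h1]
    have h0 : (fun n => ⟪v, ρ (x ^ n) w⟫_ℂ) 5 = (fun n => ⟪v, ρ (x ^ n) w⟫_ℂ) 0 := by
      simp [hx]
    generalize (fun n => ⟪v, ρ (x ^ n) w⟫_ℂ) = f at h0 ⊢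
    simp only [Finset.sum_range_succ, Finset.sum_range_zero]
    norm_num
    rw [h0]
    ring

/-- Heisenberg relation -/
def Heis (x y : G) : Prop := ∃ z : G, Commute z x ∧ Commute z y ∧ x * y = z * (y * x)

lemma heis_pow {x y z : G} (hzx : Commute z x) (hzy : Commute z y) (h : x * y = z * (y * x))
    (a b : ℕ) : x ^ a * y ^ b = z ^ (a * b) * (y ^ b * x ^ a) := by
  have h1 : ∀ a : ℕ, x ^ a * y = z ^ a * (y * x ^ a) := by
    intro a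
    induction a with
    | zero => simp
    | succ a ih =>
      calc x ^ (a + 1) * y = x * (x ^ a * y) := by rw [pow_succ', mul_assoc]
        _ = x * (z ^ a * (y * x ^ a)) := by rw [ih]
        _ = z ^ a * (x * y) * x ^ a := by
            rw [← mul_assoc x, ← (hzx.pow_left a).eq]; group
        _ = z ^ a * (z * (y * x)) * x ^ a := by rw [h]
        _ = z ^ (a + 1) * (y * x ^ (a + 1)) := by
            rw [pow_succ z, pow_succ' x]; group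
  induction b with
  | zero => simp
  | succ b ih =>
    calc x ^ a * y ^ (b + 1) = (x ^ a * y ^ b) * y := by rw [pow_succ, mul_assoc]
      _ = z ^ (a * b) * (y ^ b * (x ^ a * y)) := by rw [ih]; group
      _ = z ^ (a * b) * (y ^ b * (z ^ a * (y * x ^ a))) := by rw [h1]
      _ = z ^ (a * b) * (y ^ b * z ^ a) * (y * x ^ a) := by group
      _ = z ^ (a * b) * (z ^ a * y ^ b) * (y * x ^ a) := by
          rw [(hzy.pow_pow a b).eq]
      _ = z ^ (a * (b + 1)) * (y ^ (b + 1) * x ^ a) := by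
          rw [mul_add, mul_one, pow_add z, pow_succ y]; group

lemma heis_pair_ineq (ρ : G →* (H →L[ℂ] H)) (hρ : ∀ g v w, ⟪ρ g v, w⟫_ℂ = ⟪v, ρ g⁻¹ w⟫_ℂ)
    {x y : G} (hx : x ^ 5 = 1) (hy : y ^ 5 = 1) (hxy : Heis x y) {ε : ℝ} (hε0 : 0 ≤ ε)
    (hε : ε ^ 2 = 1 / 5) (v : H) :
    0 ≤ 2 * (⟪v - avg ρ x v, v - avg ρ y v⟫_ℂ).re +
      ε * (‖v - avg ρ x v‖ ^ 2 + ‖v - avg ρ y v‖ ^ 2) := by
  obtain ⟨z, hzx, hzy, hxyz⟩ := hxy
  have hpow := heis_pow hzx hzy hxyz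
  have hz : z ^ 5 = 1 := by
    have := hpow 5 1
    simp only [hx, one_mul, mul_one, pow_one] at this
    exact (mul_eq_right.1 this.symm)
  have hP := avg_isProj ρ hρ hx
  have hR := avg_isProj ρ hρ hy
  have hZ := avg_isProj ρ hρ hz
  have hε1 : ε ≤ 1 := by nlinarith
  have hcommz : ∀ g : G, Commute z g → ∀ v, avg ρ g (avg ρ z v) = avg ρ z (avg ρ g v) := by
    intro g hg v
    rw [avg_apply, avg_apply, avg_apply, avg_apply]
    simp only [map_smul, map_sum]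
    rw [Finset.smul_sum, Finset.smul_sum]
    simp only [Finset.smul_sum]
    rw [Finset.sum_comm]
    refine Finset.sum_congr rfl (fun a _ => Finset.sum_congr rfl (fun b _ => ?_))
    rw [rho_rho, rho_rho,
      (hg.pow_pow a b).eq]
  refine pair_ineq hP hR hZ hε0 hε1 (hcommz x hzx) (hcommz y hzy) ?_ ?_ v
  · intro v
    set u := avg ρ z v with hu
    have hzu : ρ z u = u := rho_avg ρ hz v
    have hzn : ∀ n, ρ (z ^ n) u = u := rho_pow_fix ρ hzu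
    rw [avg_apply, avg_apply, avg_apply, avg_apply]
    simp only [map_smul, map_sum]
    rw [Finset.smul_sum, Finset.smul_sum]
    simp only [Finset.smul_sum]
    rw [Finset.sum_comm]
    refine Finset.sum_congr rfl (fun b _ => Finset.sum_congr rfl (fun a _ => ?_))
    rw [rho_rho, rho_rho]
    rw [hpow]
    have hcz : Commute (z ^ (a * b)) (y ^ b * x ^ a) :=
      ((hzy.pow_pow _ _)).mul_right (hzx.pow_pow _ _)
    rw [hcz.eq, map_mul, mul_apply_eq_comp, hzn]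
  · intro v hv
    set r := avg ρ y v with hr
    have hZr : avg ρ z r = 0 := by rw [hr, ← hcommz y hzy, hv, map_zero]
    have hyr : ρ y r = r := rho_avg ρ hy v
    have hRr : avg ρ y r = r := avg_fix ρ hyr
    have hzero : ∀ a : ℕ, a ≠ 0 → a < 5 → avg ρ y (ρ (x ^ a) r) = 0 := by
      intro a ha0 ha5
      set s := avg ρ y (ρ (x ^ a) r) with hs
      have hcz : ∀ (n : ℕ) (v : H), ρ (z ^ n) (avg ρ y v) = avg ρ y (ρ (z ^ n) v) := by
        intro n v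
        rw [avg_apply, avg_apply, map_smul, map_sum]
        congr 1
        refine Finset.sum_congr rfl (fun b _ => ?_)
        rw [rho_rho, rho_rho,
          (hzy.pow_pow n b).eq]
      have h1 : ρ (z ^ a) s = s := by
        have h2 : s = avg ρ y (ρ y (ρ (x ^ a) r)) := by rw [avg_rho ρ hy]
        have h3 : ρ (z ^ a) s = avg ρ y (ρ (z ^ a) (ρ y (ρ (x ^ a) r))) := by
          rw [h2, hcz]
        have h4 : ρ (z ^ a) (ρ y (ρ (x ^ a) r)) = ρ (x ^ a) r := by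
          rw [rho_rho, rho_rho]
          have h5 := hpow a 1
          rw [mul_one, pow_one] at h5
          rw [mul_assoc, ← h5, map_mul, mul_apply_eq_comp, hyr]
        rw [h3, h4]
      -- z is a power of z^a
      obtain ⟨b, hb⟩ : ∃ b : ℕ, (a * b) % 5 = 1 := by
        interval_cases a
        · exact absurd rfl ha0
        · exact ⟨1, rfl⟩
        · exact ⟨3, rfl⟩
        · exact ⟨2, rfl⟩
        · exact ⟨4, rfl⟩
      have h6 : ρ z s = s := by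
        have h7 := rho_pow_fix ρ h1 b
        rw [← pow_mul] at h7
        have h8 : z ^ (a * b) = z := by
          conv_lhs => rw [← Nat.div_add_mod (a * b) 5, hb, pow_add, pow_mul, hz, one_pow, one_mul,
            pow_one]
        rwa [h8] at h7
      have h9 : avg ρ z s = s := avg_fix ρ h6
      have h10 : avg ρ z s = 0 := by
        have hcx : avg ρ z (ρ (x ^ a) r) = ρ (x ^ a) (avg ρ z r) := by
          rw [avg_apply, avg_apply, map_smul, map_sum]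
          congr 1
          refine Finset.sum_congr rfl (fun b _ => ?_)
          rw [rho_rho, rho_rho, (hzx.pow_pow b a).eq]
        rw [hs, ← hcommz y hzy, hcx, hZr, map_zero, map_zero]
      rw [← h9, h10]
    have hsum : avg ρ x r = (5 : ℂ)⁻¹ • ∑ a ∈ range 5, ρ (x ^ a) r := avg_apply _ _ _
    rw [hsum, map_smul, map_sum]
    rw [Finset.sum_eq_single_of_mem 0 (by simp) (fun a ha ha0 => hzero a ha0 (Finset.mem_range.1 ha))]
    rw [pow_zero, map_one, one_apply_eq_self, hRr]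
    have : ((ε : ℂ)) ^ 2 = (5 : ℂ)⁻¹ := by
      rw [← Complex.ofReal_pow, hε]
      push_cast; norm_num
    rw [this]

end Avg

end Pool.Agent.Helper47.Roe
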