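import Mathlib
import Pool.Agent.Helper47.Roe.Hilbert

set_option autoImplicit false

namespace Pool.Agent.Helper47.Roe

open scoped InnerProductSpace
open Finset

/-- the Hilbert space of square summable functions -/
noncomputable abbrev L2 (S : Type) := lp (fun _ : S => ℂ) 2

section Basic

variable {S : Type}

lemma l2_hasSum (f : L2 S) : HasSum (fun i => ‖f i‖ ^ 2) (‖f‖ ^ 2) := by
  have h := lp.hasSum_norm (p := 2) (by norm_num) f
  simpa using h

lemma memℓp_two {f : S → ℂ} (h : Summable fun i => ‖f i‖ ^ 2) : Memℓp f 2 := by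
  apply memℓp_gen
  simpa using h

/-- weighted permutation operator -/
noncomputable def wopL (b : S → ℂ) (C : ℝ) (hb : ∀ s, ‖b s‖ ≤ C) (σ : Equiv.Perm S) :
    L2 S →ₗ[ℂ] L2 S where
  toFun f := ⟨fun s => b s * f (σ⁻¹ s), by
    apply memℓp_two
    have h1 : Summable fun s => ‖f (σ⁻¹ s)‖ ^ 2 :=
      ((l2_hasSum f).summable).comp_injective (σ⁻¹).injective
    refine Summable.of_nonneg_of_le (fun s => sq_nonneg _) (fun s => ?_) (h1.mul_left (C ^ 2))
    rw [norm_mul, mul_pow]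
    exact mul_le_mul_of_nonneg_right (pow_le_pow_left₀ (norm_nonneg _) (hb s) 2) (sq_nonneg _)⟩
  map_add' f g := by
    ext s
    show b s * ((f + g : L2 S) (σ⁻¹ s)) = b s * f (σ⁻¹ s) + b s * g (σ⁻¹ s)
    rw [lp.coeFn_add, Pi.add_apply, mul_add]
  map_smul' c f := by
    ext s
    show b s * ((c • f : L2 S) (σ⁻¹ s)) = c * (b s * f (σ⁻¹ s))
    rw [lp.coeFn_smul, Pi.smul_apply, smul_eq_mul]; ring

lemma wopL_apply (b : S → ℂ) (C : ℝ) (hb : ∀ s, ‖b s‖ ≤ C) (σ : Equiv.Perm S) (f : L2 S) (s : S) :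
    wopL b C hb σ f s = b s * f (σ⁻¹ s) := rfl

lemma wopL_norm (b : S → ℂ) (C : ℝ) (hC : 0 ≤ C) (hb : ∀ s, ‖b s‖ ≤ C) (σ : Equiv.Perm S)
    (f : L2 S) : ‖wopL b C hb σ f‖ ≤ C * ‖f‖ := by
  have h1 := l2_hasSum (wopL b C hb σ f)
  have h2 : HasSum (fun s => ‖f (σ⁻¹ s)‖ ^ 2) (‖f‖ ^ 2) :=
    ((σ⁻¹).hasSum_iff (f := fun s => ‖f s‖ ^ 2)).2 (l2_hasSum f)
  have h3 : ‖wopL b C hb σ f‖ ^ 2 ≤ C ^ 2 * ‖f‖ ^ 2 := by
    refine hasSum_le (fun s => ?_) h1 (h2.mul_left (C ^ 2))
    rw [wopL_apply, norm_mul, mul_pow]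
    exact mul_le_mul_of_nonneg_right (pow_le_pow_left₀ (norm_nonneg _) (hb s) 2) (sq_nonneg _)
  rw [← mul_pow] at h3
  exact (sq_le_sq₀ (norm_nonneg _) (mul_nonneg hC (norm_nonneg _))).1 h3

/-- weighted permutation operator as a bounded operator -/
noncomputable def wop (b : S → ℂ) (C : ℝ) (hC : 0 ≤ C) (hb : ∀ s, ‖b s‖ ≤ C)
    (σ : Equiv.Perm S) : L2 S →L[ℂ] L2 S :=
  (wopL b C hb σ).mkContinuous C (wopL_norm b C hC hb σ)

lemma wop_apply (b : S → ℂ) (C : ℝ) (hC : 0 ≤ C) (hb : ∀ s, ‖b s‖ ≤ C) (σ : Equiv.Perm S)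
    (f : L2 S) (s : S) : wop b C hC hb σ f s = b s * f (σ⁻¹ s) := rfl

/-- the unitary representation of the permutation group -/
noncomputable def rho (S : Type) : Equiv.Perm S →* (L2 S →L[ℂ] L2 S) where
  toFun σ := wop (fun _ => 1) 1 zero_le_one (fun _ => by simp) σ
  map_one' := by
    ext f s
    rw [wop_apply, one_mul]; rfl
  map_mul' σ τ := by
    ext f s
    rw [wop_apply]
    show 1 * f ((σ * τ)⁻¹ s) = 1 * (wop (fun _ => 1) 1 zero_le_one (fun _ => by simp) τ f) (σ⁻¹ s)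
    rw [wop_apply, mul_inv_rev]
    simp

lemma rho_apply (σ : Equiv.Perm S) (f : L2 S) (s : S) : rho S σ f s = f (σ⁻¹ s) := by
  show wop (fun _ => 1) 1 zero_le_one (fun _ => by simp) σ f s = _
  rw [wop_apply, one_mul]

lemma rho_inner (σ : Equiv.Perm S) (v w : L2 S) : ⟪rho S σ v, w⟫_ℂ = ⟪v, rho S σ⁻¹ w⟫_ℂ := by
  rw [lp.inner_eq_tsum, lp.inner_eq_tsum]
  rw [← (σ : S ≃ S).tsum_eq]
  refine tsum_congr (fun s => ?_)
  rw [rho_apply, rho_apply]
  have h1 : σ⁻¹ (σ s) = s := σ.symm_apply_apply s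
  have h2 : (σ⁻¹)⁻¹ s = σ s := by rw [inv_inv]
  rw [h1, h2]

lemma wop_comp_rho (b : S → ℂ) (C : ℝ) (hC : 0 ≤ C) (hb : ∀ s, ‖b s‖ ≤ C)
    (σ τ : Equiv.Perm S) : wop b C hC hb σ * rho S τ = wop b C hC hb (σ * τ) := by
  ext f s
  rw [mul_apply_eq_comp, wop_apply, wop_apply, rho_apply, mul_inv_rev]
  rfl

variable [DecidableEq S]

lemma wop_single (b : S → ℂ) (C : ℝ) (hC : 0 ≤ C) (hb : ∀ s, ‖b s‖ ≤ C) (σ : Equiv.Perm S)
    (x x' : S) : wop b C hC hb σ (lp.single 2 x (1 : ℂ)) x' = if σ x = x' then b x' else 0 := by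
  rw [wop_apply, lp.single_apply]
  by_cases h : σ x = x'
  · subst h
    simp
  · rw [if_neg h]
    have : σ⁻¹ x' ≠ x := by
      rintro rfl
      exact h (by simp)
    rw [Pi.single_eq_of_ne this, mul_zero]

lemma clm_ext {E : Type*} [NormedAddCommGroup E] [NormedSpace ℂ E] {A B : L2 S →L[ℂ] E}
    (h : ∀ x, A (lp.single 2 x (1 : ℂ)) = B (lp.single 2 x (1 : ℂ))) : A = B := by
  refine lp.ext_continuousLinearMap (by norm_num) (fun i => ?_)
  ext
  simpa using h i

end Basic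

section Fiber

variable {X Y : Type} (p : Y → X)

/-- the weight -/
noncomputable def kap (x : X) : ℝ := (Real.sqrt (Nat.card {y // p y = x}))⁻¹

variable [hfin : ∀ x, Finite {y // p y = x}] [hne : ∀ x, Nonempty {y // p y = x}]

include hfin hne in
lemma kap_sq (x : X) : (Nat.card {y // p y = x} : ℝ) * kap p x ^ 2 = 1 := by
  have h : 0 < Nat.card {y // p y = x} := Nat.card_pos
  have h' : (0 : ℝ) < Nat.card {y // p y = x} := by exact_mod_cast h
  rw [kap, inv_pow, Real.sq_sqrt h'.le]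
  field_simp

omit hfin hne in
lemma kap_nonneg (x : X) : 0 ≤ kap p x := inv_nonneg.2 (Real.sqrt_nonneg _)

lemma fiber_hasSum {g : X → ℝ} {a : ℝ} (hg : ∀ x, 0 ≤ g x) (h : HasSum g a) :
    HasSum (fun y => kap p (p y) ^ 2 * g (p y)) a := by
  rw [← (Equiv.sigmaFiberEquiv p).hasSum_iff]
  have key : ∀ x, HasSum (fun c : {y // p y = x} =>
      ((fun y => kap p (p y) ^ 2 * g (p y)) ∘ (Equiv.sigmaFiberEquiv p)) ⟨x, c⟩) (g x) := by
    intro x
    have h1 : ∀ c : {y // p y = x},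
        ((fun y => kap p (p y) ^ 2 * g (p y)) ∘ (Equiv.sigmaFiberEquiv p)) ⟨x, c⟩ =
        kap p x ^ 2 * g x := by
      rintro ⟨y, hy⟩
      show kap p (p y) ^ 2 * g (p y) = _
      rw [hy]
    have : Fintype {y // p y = x} := Fintype.ofFinite _
    have h2 := hasSum_fintype (fun c : {y // p y = x} =>
      ((fun y => kap p (p y) ^ 2 * g (p y)) ∘ (Equiv.sigmaFiberEquiv p)) ⟨x, c⟩)
    convert h2 using 1
    rw [Finset.sum_congr rfl (fun c _ => h1 c), Finset.sum_const, Finset.card_univ,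
      nsmul_eq_mul, ← Nat.card_eq_fintype_card]
    rw [← mul_assoc, kap_sq p x, one_mul]
  refine HasSum.sigma_of_hasSum h key ?_
  have hnn : ∀ z, 0 ≤ ((fun y => kap p (p y) ^ 2 * g (p y)) ∘ (Equiv.sigmaFiberEquiv p)) z :=
    fun z => mul_nonneg (sq_nonneg _) (hg _)
  rw [summable_sigma_of_nonneg hnn]
  refine ⟨fun x => (key x).summable, ?_⟩
  have : (fun x => ∑' c : {y // p y = x},
      ((fun y => kap p (p y) ^ 2 * g (p y)) ∘ (Equiv.sigmaFiberEquiv p)) ⟨x, c⟩) = g := by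
    funext x
    exact (key x).tsum_eq
  rw [this]
  exact h.summable

/-- the isometry spreading a point over its fibre -/
noncomputable def UU : L2 X →ₗᵢ[ℂ] L2 Y where
  toFun f := ⟨fun y => (kap p (p y) : ℂ) * f (p y), by
    apply memℓp_two
    have h := fiber_hasSum p (g := fun x => ‖f x‖ ^ 2) (fun x => sq_nonneg _) (l2_hasSum f)
    refine h.summable.congr (fun y => ?_)
    rw [norm_mul, mul_pow, Complex.norm_real, Real.norm_eq_abs, sq_abs]⟩
  map_add' f g := by
    ext y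
    show (kap p (p y) : ℂ) * ((f + g : L2 X) (p y)) = _ * _ + _ * _
    rw [lp.coeFn_add, Pi.add_apply, mul_add]
  map_smul' c f := by
    ext y
    show (kap p (p y) : ℂ) * ((c • f : L2 X) (p y)) = c * (_ * _)
    rw [lp.coeFn_smul, Pi.smul_apply, smul_eq_mul]; ring
  norm_map' f := by
    set Uf : L2 Y := _ with hUf
    show ‖Uf‖ = ‖f‖
    have hUfv : ∀ y, Uf y = (kap p (p y) : ℂ) * f (p y) := fun y => rfl
    have h1 := l2_hasSum Uf
    have h2 := fiber_hasSum p (g := fun x => ‖f x‖ ^ 2) (fun x => sq_nonneg _) (l2_hasSum f)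
    have h3 : (fun y => kap p (p y) ^ 2 * ‖f (p y)‖ ^ 2) = fun y => ‖Uf y‖ ^ 2 := by
      funext y
      rw [hUfv, norm_mul, mul_pow, Complex.norm_real, Real.norm_eq_abs, sq_abs]
    rw [h3] at h2
    have h4 := h1.unique h2
    exact (sq_eq_sq₀ (norm_nonneg _) (norm_nonneg _)).1 h4

lemma UU_apply (f : L2 X) (y : Y) : UU p f y = (kap p (p y) : ℂ) * f (p y) := rfl

/-- the isometry as a bounded operator -/
noncomputable def Uc : L2 X →L[ℂ] L2 Y := (UU p).toContinuousLinearMap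

lemma Uc_apply (f : L2 X) (y : Y) : Uc p f y = (kap p (p y) : ℂ) * f (p y) := rfl

lemma adj_Uc : (ContinuousLinearMap.adjoint (Uc p)) ∘L (Uc p) = ContinuousLinearMap.id ℂ _ := by
  have h := ContinuousLinearMap.norm_map_iff_adjoint_comp_self (Uc p)
  exact h.1 (fun x => (UU p).norm_map x)

lemma adj_Uc_apply (f : L2 X) : ContinuousLinearMap.adjoint (Uc p) (Uc p f) = f := by
  have := DFunLike.congr_fun (adj_Uc p) f
  exact this

/-- the projection onto functions constant on fibres -/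
noncomputable def EE : L2 Y →L[ℂ] L2 Y := (Uc p) ∘L (ContinuousLinearMap.adjoint (Uc p))

lemma EE_apply (h : L2 Y) : EE p h = Uc p (ContinuousLinearMap.adjoint (Uc p) h) := rfl

lemma EE_isProj : IsProj (EE p) := by
  refine ⟨fun v => ?_, fun v w => ?_⟩
  · rw [EE_apply, EE_apply, adj_Uc_apply]
  · rw [EE_apply, EE_apply, ← ContinuousLinearMap.adjoint_inner_right]
    exact ContinuousLinearMap.adjoint_inner_left _ _ _

variable [DecidableEq X]

lemma Uc_single (x : X) (y : Y) :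
    Uc p (lp.single 2 x (1 : ℂ)) y = if p y = x then (kap p x : ℂ) else 0 := by
  rw [Uc_apply, lp.single_apply]
  by_cases h : p y = x
  · rw [if_pos h, h]; simp
  · rw [if_neg h, Pi.single_eq_of_ne h, mul_zero]

lemma EE_fix {h : L2 Y} (hc : ∀ y y', p y = p y' → h y = h y') : EE p h = h := by
  set k : L2 Y := h - EE p h with hk
  have hkc : ∀ y y', p y = p y' → k y = k y' := by
    intro y y' hy
    rw [hk, lp.coeFn_sub, Pi.sub_apply, Pi.sub_apply, hc y y' hy, EE_apply, Uc_apply, Uc_apply, hy]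
  have hperp : ∀ f, ⟪Uc p f, k⟫_ℂ = 0 := by
    intro f
    have h1 : ContinuousLinearMap.adjoint (Uc p) k = 0 := by
      rw [hk, map_sub, EE_apply, adj_Uc_apply, sub_self]
    rw [← ContinuousLinearMap.adjoint_inner_right, h1, inner_zero_right]
  have hk0 : k = 0 := by
    ext y
    have h2 := hperp (lp.single 2 (p y) (1 : ℂ))
    rw [lp.inner_eq_tsum] at h2
    have : Fintype {z // p z = p y} := Fintype.ofFinite _
    have hfs : Set.Finite {z | p z = p y} := hfin (p y)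
    rw [tsum_eq_sum (s := hfs.toFinset)] at h2
    · have h3 : ∀ z ∈ hfs.toFinset, ⟪Uc p (lp.single 2 (p y) (1 : ℂ)) z, k z⟫_ℂ =
          (kap p (p y) : ℂ) * k y := by
        intro z hz
        have hz' : p z = p y := by simpa using hz
        rw [Uc_single, if_pos hz', hkc z y hz']
        simp [mul_comm]
      rw [Finset.sum_congr rfl h3, Finset.sum_const, nsmul_eq_mul] at h2
      have hcard : 0 < hfs.toFinset.card := Finset.card_pos.2 ⟨y, by simp⟩
      have hkap : (kap p (p y) : ℂ) ≠ 0 := by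
        have := kap_sq p (p y)
        intro h0
        rw [Complex.ofReal_eq_zero] at h0
        rw [h0] at this
        norm_num at this
      rcases mul_eq_zero.1 h2 with h4 | h4
      · exact absurd (Nat.cast_eq_zero.1 h4) hcard.ne'
      · rcases mul_eq_zero.1 h4 with h5 | h5
        · exact absurd h5 hkap
        · simpa using h5
    · intro z hz
      have hz' : ¬ p z = p y := by simpa using hz
      rw [Uc_single, if_neg hz', inner_zero_left]
  have h6 := sub_eq_zero.1 (hk ▸ hk0)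
  exact h6.symm

end Fiber

end Pool.Agent.Helper47.Roe
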