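import Mathlib
import Pool.Agent.Helper47.Roe.Hilbert

set_option autoImplicit false

namespace Pool.Agent.Helper47.Roe

open Polynomial Matrix Matrix.SpecialLinearGroup

instance fact5 : Fact (Nat.Prime 5) := ⟨by norm_num⟩

/-- the polynomial ring over the field with five elements -/
abbrev RR := Polynomial (ZMod 5)

/-- the ambient group -/
abbrev SL3 := Matrix.SpecialLinearGroup (Fin 3) RR

/-- elementary matrix -/
abbrev tv {R : Type*} [CommRing R] {i j : Fin 3} (h : i ≠ j) (c : R) :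
    Matrix.SpecialLinearGroup (Fin 3) R := transvection h c

lemma tv_comm {R : Type*} [CommRing R] {i j k : Fin 3} (hij : i ≠ j) (hjk : j ≠ k) (hik : i ≠ k)
    (c d : R) : tv hij c * tv hjk d = tv hik (c * d) * (tv hjk d * tv hij c) := by
  apply Subtype.ext
  simp [transvection_coe, mul_add, add_mul,
    single_mul_single_of_ne _ _ _ _ hjk.symm, single_mul_single_of_ne _ _ _ _ hik.symm]
  abel

lemma tv_commute1 {R : Type*} [CommRing R] {i j k : Fin 3} (hij : i ≠ j) (hik : i ≠ k)
    (c d : R) : Commute (tv hik d) (tv hij c) := by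
  apply Subtype.ext
  simp [transvection_coe, mul_add, add_mul, single_mul_single_of_ne _ _ _ _ hij.symm,
    single_mul_single_of_ne _ _ _ _ hik.symm]
  abel

lemma tv_commute2 {R : Type*} [CommRing R] {i j k : Fin 3} (hjk : j ≠ k) (hik : i ≠ k)
    (c d : R) : Commute (tv hik d) (tv hjk c) := by
  apply Subtype.ext
  simp [transvection_coe, mul_add, add_mul, single_mul_single_of_ne _ _ _ _ hjk.symm,
    single_mul_single_of_ne _ _ _ _ hik.symm]
  abel

lemma tv_heis {R : Type*} [CommRing R] {i j k : Fin 3} (hij : i ≠ j) (hjk : j ≠ k) (hik : i ≠ k)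
    (c d : R) : Heis (tv hij c) (tv hjk d) :=
  ⟨tv hik (c * d), tv_commute1 hij hik c _, tv_commute2 hjk hik d _, tv_comm hij hjk hik c d⟩

lemma heis_symm {G : Type*} [Group G] {x y : G} (h : Heis x y) : Heis y x := by
  obtain ⟨z, h1, h2, h3⟩ := h
  refine ⟨z⁻¹, h2.inv_left, h1.inv_left, ?_⟩
  rw [h3]; group

lemma heis_map {G G' : Type*} [Group G] [Group G'] (f : G →* G') {x y : G} (h : Heis x y) :
    Heis (f x) (f y) := by
  obtain ⟨z, h1, h2, h3⟩ := h
  exact ⟨f z, h1.map f, h2.map f, by rw [← map_mul, h3, map_mul, map_mul]⟩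

lemma tv_pow {R : Type*} [CommRing R] {i j : Fin 3} (hij : i ≠ j) (c : R) (n : ℕ) :
    (tv hij c) ^ n = tv hij ((n : R) * c) := by
  induction n with
  | zero => simp
  | succ n ih => rw [pow_succ, ih, ← transvection_add]; push_cast; ring_nf

lemma tv_pow5 {i j : Fin 3} (hij : i ≠ j) (c : RR) : (tv hij c) ^ 5 = 1 := by
  rw [tv_pow]
  have : ((5 : ℕ) : RR) = 0 := CharP.cast_eq_zero RR 5
  rw [this, zero_mul]
  exact transvection_coeff_zero _

lemma h01 : (0 : Fin 3) ≠ 1 := by decide
lemma h12 : (1 : Fin 3) ≠ 2 := by decide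
lemma h20 : (2 : Fin 3) ≠ 0 := by decide
lemma h02 : (0 : Fin 3) ≠ 2 := by decide
lemma h21 : (2 : Fin 3) ≠ 1 := by decide
lemma h10 : (1 : Fin 3) ≠ 0 := by decide

/-- the three generators -/
noncomputable def gen3 : Fin 3 → SL3 := ![tv h01 1, tv h12 1, tv h20 X]

/-- the group they generate -/
noncomputable def Gam : Subgroup SL3 := Subgroup.closure (Set.range gen3)

lemma gen3_mem (i : Fin 3) : gen3 i ∈ Gam := Subgroup.subset_closure ⟨i, rfl⟩

/-- the generators as elements of the group -/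
noncomputable def xg (i : Fin 3) : Gam := ⟨gen3 i, gen3_mem i⟩

lemma gen3_heis : ∀ i j, i ≠ j → Heis (gen3 i) (gen3 j) := by
  have a : Heis (gen3 0) (gen3 1) := tv_heis h01 h12 h02 _ _
  have b : Heis (gen3 1) (gen3 2) := tv_heis h12 h20 h10 _ _
  have c : Heis (gen3 2) (gen3 0) := tv_heis h20 h01 h21 _ _
  intro i j hij
  fin_cases i <;> fin_cases j
  · exact absurd rfl hij
  · exact a
  · exact heis_symm c
  · exact heis_symm a
  · exact absurd rfl hij
  · exact b
  · exact c
  · exact heis_symm b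
  · exact absurd rfl hij

lemma gen3_pow (i : Fin 3) : gen3 i ^ 5 = 1 := by
  fin_cases i
  · exact tv_pow5 h01 _
  · exact tv_pow5 h12 _
  · exact tv_pow5 h20 _

lemma tv_mem_of_comm {i j k : Fin 3} (hij : i ≠ j) (hjk : j ≠ k) (hik : i ≠ k)
    {c d : RR} (h1 : tv hij c ∈ Gam) (h2 : tv hjk d ∈ Gam) : tv hik (c * d) ∈ Gam := by
  have := tv_comm hij hjk hik c d
  have h3 : tv hik (c * d) = tv hij c * tv hjk d * (tv hjk d * tv hij c)⁻¹ := by
    rw [this]; group
  rw [h3]
  exact Gam.mul_mem (Gam.mul_mem h1 h2) (Gam.inv_mem (Gam.mul_mem h2 h1))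

lemma mem01 : tv h01 (1 : RR) ∈ Gam := by
  have h : tv h01 (1 : RR) = gen3 0 := rfl
  rw [h]; exact gen3_mem 0
lemma mem12 : tv h12 (1 : RR) ∈ Gam := by
  have h : tv h12 (1 : RR) = gen3 1 := rfl
  rw [h]; exact gen3_mem 1
lemma mem20 : tv h20 (X : RR) ∈ Gam := by
  have h : tv h20 (X : RR) = gen3 2 := rfl
  rw [h]; exact gen3_mem 2

lemma mem21 : tv h21 (X : RR) ∈ Gam := by
  have := tv_mem_of_comm h20 h01 h21 mem20 mem01
  rwa [mul_one] at this

lemma mem_pow_upper (n : ℕ) : tv h01 ((X : RR) ^ n) ∈ Gam ∧ tv h02 ((X : RR) ^ n) ∈ Gam := by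
  induction n with
  | zero =>
    refine ⟨by simpa using mem01, ?_⟩
    have := tv_mem_of_comm h01 h12 h02 mem01 mem12
    simpa using this
  | succ n ih =>
    have h1 : tv h01 ((X : RR) ^ (n + 1)) ∈ Gam := by
      have := tv_mem_of_comm h02 h21 h01 ih.2 mem21
      rwa [← pow_succ] at this
    refine ⟨h1, ?_⟩
    have := tv_mem_of_comm h01 h12 h02 h1 mem12
    rwa [mul_one] at this

lemma mem_pow_lower (n : ℕ) :
    tv h20 ((X : RR) ^ (n + 1)) ∈ Gam ∧ tv h10 ((X : RR) ^ (n + 1)) ∈ Gam := by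
  induction n with
  | zero =>
    refine ⟨by simpa using mem20, ?_⟩
    have := tv_mem_of_comm h12 h20 h10 mem12 mem20
    simpa using this
  | succ n ih =>
    have h1 : tv h20 ((X : RR) ^ (n + 2)) ∈ Gam := by
      have := tv_mem_of_comm h21 h10 h20 mem21 ih.2
      rwa [← pow_succ'] at this
    refine ⟨h1, ?_⟩
    have := tv_mem_of_comm h12 h20 h10 mem12 h1
    rwa [one_mul] at this

/-- the free pair -/
noncomputable def eta (k : ℕ) (j : Fin 2) : SL3 :=
  tv h01 (C ((j : ℕ) + 1 : ZMod 5) * (X : RR) ^ (k + 1)) *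
    tv h10 (C ((j : ℕ) + 1 : ZMod 5) * (X : RR) ^ (k + 1))

lemma tv_natmul_mem {i j : Fin 3} (h : i ≠ j) (n : ℕ) {c : RR} (hc : tv h c ∈ Gam) :
    tv h (C (n : ZMod 5) * c) ∈ Gam := by
  have := Gam.pow_mem hc n
  rw [tv_pow] at this
  simpa using this

lemma eta_mem (k : ℕ) (j : Fin 2) : eta k j ∈ Gam := by
  refine Gam.mul_mem ?_ ?_
  · have := tv_natmul_mem h01 ((j : ℕ) + 1) (mem_pow_upper (k + 1)).1
    simpa using this
  · have := tv_natmul_mem h10 ((j : ℕ) + 1) (mem_pow_lower k).2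
    simpa using this

/-! ### reduction modulo powers of the variable -/

/-- the truncated ring -/
abbrev TR (n : ℕ) := RR ⧸ Ideal.span {(X : RR) ^ n}

instance finTR (n : ℕ) : Finite (TR n) := by
  have h1 : Module.Finite (ZMod 5) (TR n) := (monic_X_pow n).finite_quotient
  exact Module.finite_of_finite (ZMod 5)

/-- reduction -/
noncomputable def red (n : ℕ) : SL3 →* Matrix.SpecialLinearGroup (Fin 3) (TR n) :=
  Matrix.SpecialLinearGroup.map (Ideal.Quotient.mk _)

lemma red_eq_iff (n : ℕ) (A B : SL3) :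
    red n A = red n B ↔ ∀ i j, (X : RR) ^ n ∣ A i j - B i j := by
  constructor
  · intro h i j
    have := congrArg (fun M : Matrix.SpecialLinearGroup (Fin 3) (TR n) => M i j) h
    simp only [red, Matrix.SpecialLinearGroup.map_apply_coe, RingHom.mapMatrix_apply,
      Matrix.map_apply] at this
    rw [Ideal.Quotient.eq, Ideal.mem_span_singleton] at this
    exact this
  · intro h
    apply Matrix.SpecialLinearGroup.ext
    intro i j
    simp only [red, Matrix.SpecialLinearGroup.map_apply_coe, RingHom.mapMatrix_apply,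
      Matrix.map_apply]
    rw [Ideal.Quotient.eq, Ideal.mem_span_singleton]
    exact h i j

lemma red_mono {m n : ℕ} (hmn : m ≤ n) {A B : SL3} (h : red n A = red n B) :
    red m A = red m B := by
  rw [red_eq_iff] at h ⊢
  intro i j
  exact (pow_dvd_pow _ hmn).trans (h i j)

lemma red_eta {k n : ℕ} (hn : n ≤ k + 1) (j : Fin 2) : red n (eta k j) = 1 := by
  have h : ∀ {i j : Fin 3} (h : i ≠ j) (c : RR), X ^ n ∣ c → red n (tv h c) = 1 := by
    intro i j h c hc
    rw [← map_one (red n), red_eq_iff]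
    intro a b
    have : (tv h c : SL3) a b - (1 : SL3) a b = Matrix.single i j c a b := by
      simp [tv, transvection_coe]
    rw [this, Matrix.single_apply]
    split_ifs
    · exact hc
    · exact dvd_zero _
  have hd : (X : RR) ^ n ∣ C ((j : ℕ) + 1 : ZMod 5) * (X : RR) ^ (k + 1) :=
    Dvd.dvd.mul_left (pow_dvd_pow _ hn) _
  rw [eta, map_mul, h h01 _ hd, h h10 _ hd, one_mul]

/-- all entries have degree at most `d` -/
def Deg (d : ℕ) (A : SL3) : Prop := ∀ i j, (A i j).natDegree ≤ d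

lemma Deg.mul {d e : ℕ} {A B : SL3} (hA : Deg d A) (hB : Deg e B) : Deg (d + e) (A * B) := by
  intro i j
  rw [Matrix.SpecialLinearGroup.coe_mul, Matrix.mul_apply]
  refine natDegree_sum_le_of_forall_le _ _ (fun k _ => ?_)
  exact natDegree_mul_le.trans (add_le_add (hA i k) (hB k j))

lemma Deg.mono {d e : ℕ} {A : SL3} (hA : Deg d A) (h : d ≤ e) : Deg e A :=
  fun i j => (hA i j).trans h

lemma Deg.one : Deg 0 (1 : SL3) := by
  intro i j
  rw [Matrix.SpecialLinearGroup.coe_one, Matrix.one_apply]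
  split_ifs <;> simp

lemma deg_tv {i j : Fin 3} (h : i ≠ j) {c : RR} {d : ℕ} (hc : c.natDegree ≤ d) :
    Deg d (tv h c) := by
  intro a b
  have : (tv h c : SL3) a b = (1 : Matrix (Fin 3) (Fin 3) RR) a b + Matrix.single i j c a b := by
    simp [tv, transvection_coe]
  rw [this, Matrix.single_apply, Matrix.one_apply]
  split_ifs <;> simp [hc, natDegree_add_le_of_degree_le]

lemma Deg.free {α : Type*} [DecidableEq α] (ψ : FreeGroup α →* SL3) {d : ℕ}
    (h : ∀ a, Deg d (ψ (FreeGroup.of a)) ∧ Deg d (ψ (FreeGroup.of a))⁻¹) (w : FreeGroup α) :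
    Deg (d * w.norm) (ψ w) := by
  have key : ∀ L : List (α × Bool), Deg (d * L.length) (ψ (FreeGroup.mk L)) := by
    intro L
    induction L with
    | nil =>
      have : FreeGroup.mk ([] : List (α × Bool)) = 1 := rfl
      rw [this, map_one]
      exact Deg.one.mono (Nat.zero_le _)
    | cons x L ih =>
      have h1 : FreeGroup.mk (x :: L) = FreeGroup.mk [x] * FreeGroup.mk L := by
        rw [FreeGroup.mul_mk]; rfl
      rw [h1, map_mul, List.length_cons, mul_add, mul_one, add_comm]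
      refine Deg.mul ?_ ih
      obtain ⟨a, b⟩ := x
      cases b with
      | true => exact (h a).1
      | false =>
        have h2 : FreeGroup.mk [(a, false)] = (FreeGroup.of a)⁻¹ := rfl
        rw [h2, map_inv]
        exact (h a).2
  have := key w.toWord
  rwa [FreeGroup.mk_toWord] at this

lemma eq_one_of_red {A : SL3} {n d : ℕ} (hA : Deg d A) (hd : d < n) (h : red n A = 1) : A = 1 := by
  rw [← map_one (red n), red_eq_iff] at h
  apply Matrix.SpecialLinearGroup.ext
  intro i j
  have h1 := h i j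
  have h2 : (A i j - (1 : SL3) i j).natDegree < ((X : RR) ^ n).natDegree := by
    rw [natDegree_X_pow]
    refine lt_of_le_of_lt ((natDegree_sub_le _ _).trans ?_) hd
    exact max_le (hA i j) ((Deg.one i j).trans (Nat.zero_le _))
  exact sub_eq_zero.1 (eq_zero_of_dvd_of_natDegree_lt h1 h2)

/-! ### ping-pong -/

/-- the group of linear automorphisms of pairs -/
abbrev AA := (RR × RR) ≃ₗ[RR] (RR × RR)

/-- upper shear -/
noncomputable def Ush (c : RR) : AA where
  toFun v := (v.1 + c * v.2, v.2)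
  map_add' v w := by ext1 <;> (simp; try ring)
  map_smul' a v := by ext1 <;> (simp; try ring)
  invFun v := (v.1 - c * v.2, v.2)
  left_inv v := by ext1 <;> simp
  right_inv v := by ext1 <;> simp

/-- lower shear -/
noncomputable def Vsh (c : RR) : AA where
  toFun v := (v.1, v.2 + c * v.1)
  map_add' v w := by ext1 <;> (simp; try ring)
  map_smul' a v := by ext1 <;> (simp; try ring)
  invFun v := (v.1, v.2 - c * v.1)
  left_inv v := by ext1 <;> simp
  right_inv v := by ext1 <;> simp

/-- nonzero pairs -/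
abbrev NZ := {v : RR × RR // v ≠ 0}

noncomputable instance actNZ : MulAction AA NZ where
  smul e v := ⟨e v.1, fun h => v.2 (e.map_eq_zero_iff.1 h)⟩
  one_smul _ := rfl
  mul_smul _ _ _ := rfl

lemma smul_val (e : AA) (v : NZ) : (e • v).1 = e v.1 := rfl

/-- the multiplier -/
noncomputable def cc (k : ℕ) (j : Fin 2) : RR := C ((j : ℕ) + 1 : ZMod 5) * (X : RR) ^ (k + 1)

/-- the free pair of automorphisms -/
noncomputable def aa (k : ℕ) (j : Fin 2) : AA := Ush (cc k j) * Vsh (cc k j)

lemma degree_cc (k : ℕ) (j : Fin 2) : (cc k j).degree = ((k + 1 : ℕ) : WithBot ℕ) := by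
  have hne : ((j : ℕ) + 1 : ZMod 5) ≠ 0 := by
    fin_cases j <;> decide
  rw [cc, degree_C_mul_X_pow _ hne]

lemma degree_cc_sub (k : ℕ) {i j : Fin 2} (hij : i ≠ j) :
    (cc k i - cc k j).degree = ((k + 1 : ℕ) : WithBot ℕ) := by
  have hne : ((i : ℕ) + 1 : ZMod 5) - ((j : ℕ) + 1 : ZMod 5) ≠ 0 := by
    fin_cases i <;> fin_cases j <;> first | exact absurd rfl hij | decide
  have : cc k i - cc k j = C (((i : ℕ) + 1 : ZMod 5) - ((j : ℕ) + 1 : ZMod 5)) * (X : RR) ^ (k + 1) := by
    rw [C_sub]; simp only [cc]; ring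
  rw [this, degree_C_mul_X_pow _ hne]

lemma wb_lt {a : WithBot ℕ} (ha : a ≠ ⊥) (k : ℕ) : a < ((k + 1 : ℕ) : WithBot ℕ) + a := by
  obtain ⟨n, rfl⟩ := WithBot.ne_bot_iff_exists.1 ha
  rw [← WithBot.coe_natCast, ← WithBot.coe_add, WithBot.coe_lt_coe]
  simp

lemma wb_le (a : WithBot ℕ) (k : ℕ) : a ≤ ((k + 1 : ℕ) : WithBot ℕ) + a := by
  rcases eq_or_ne a ⊥ with h | h
  · rw [h]; exact bot_le
  · exact (wb_lt h k).le

/-- attracting sets -/
def XX (k : ℕ) (j : Fin 2) : Set NZ := {v | (v.1.1 - cc k j * v.1.2).degree < (cc k j * v.1.2).degree}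

/-- repelling sets -/
def YY (k : ℕ) (j : Fin 2) : Set NZ := {v | (cc k j * v.1.1 + v.1.2).degree < v.1.2.degree}

lemma XX_deg {k : ℕ} {j : Fin 2} {v : NZ} (hv : v ∈ XX k j) :
    v.1.1.degree = ((k + 1 : ℕ) : WithBot ℕ) + v.1.2.degree ∧ v.1.2.degree ≠ ⊥ := by
  have hv' : (v.1.1 - cc k j * v.1.2).degree < (cc k j * v.1.2).degree := hv
  have h1 : v.1.1 = cc k j * v.1.2 + (v.1.1 - cc k j * v.1.2) := by ring
  have h2 : v.1.1.degree = (cc k j * v.1.2).degree := by
    rw [h1]; exact degree_add_eq_left_of_degree_lt hv'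
  rw [degree_mul, degree_cc] at h2
  refine ⟨h2, ?_⟩
  intro h
  rw [degree_mul, h, WithBot.add_bot] at hv'
  exact not_lt_bot hv'

lemma YY_deg {k : ℕ} {j : Fin 2} {v : NZ} (hv : v ∈ YY k j) :
    v.1.2.degree = ((k + 1 : ℕ) : WithBot ℕ) + v.1.1.degree ∧ v.1.1.degree ≠ ⊥ := by
  have hv' : (cc k j * v.1.1 + v.1.2).degree < v.1.2.degree := hv
  have h1 : cc k j * v.1.1 = -v.1.2 + (cc k j * v.1.1 + v.1.2) := by ring
  have h2 : (cc k j * v.1.1).degree = v.1.2.degree := by
    rw [h1, degree_add_eq_left_of_degree_lt (by rwa [degree_neg]), degree_neg]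
  rw [degree_mul, degree_cc] at h2
  refine ⟨h2.symm, ?_⟩
  intro h
  rw [h, WithBot.add_bot] at h2
  rw [← h2] at hv'
  exact not_lt_bot hv'

lemma lift_aa_injective (k : ℕ) : Function.Injective (FreeGroup.lift (aa k)) := by
  refine FreeGroup.injective_lift_of_ping_pong (aa k) (XX k) (YY k) ?_ ?_ ?_ ?_ ?_ ?_
  · intro j
    refine ⟨⟨(cc k j, 1), fun h => one_ne_zero (congrArg Prod.snd h)⟩, ?_⟩
    show (cc k j - cc k j * 1).degree < (cc k j * 1).degree
    rw [mul_one, sub_self, degree_zero, degree_cc]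
    exact WithBot.bot_lt_coe _
  · intro i j hij
    rw [Function.onFun, Set.disjoint_left]
    intro v hvi hvj
    have h1 := XX_deg hvi
    have hvi' : (v.1.1 - cc k i * v.1.2).degree < (cc k i * v.1.2).degree := hvi
    have hvj' : (v.1.1 - cc k j * v.1.2).degree < (cc k j * v.1.2).degree := hvj
    rw [degree_mul, degree_cc] at hvi' hvj'
    have h2 : ((cc k i - cc k j) * v.1.2).degree < ((k + 1 : ℕ) : WithBot ℕ) + v.1.2.degree := by
      have : (cc k i - cc k j) * v.1.2 =
          (v.1.1 - cc k j * v.1.2) - (v.1.1 - cc k i * v.1.2) := by ring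
      rw [this]
      exact (degree_sub_le _ _).trans_lt (max_lt hvj' hvi')
    rw [degree_mul, degree_cc_sub k hij] at h2
    exact lt_irrefl _ h2
  · intro i j hij
    rw [Function.onFun, Set.disjoint_left]
    intro v hvi hvj
    have h1 := YY_deg hvi
    have hvi' : (cc k i * v.1.1 + v.1.2).degree < v.1.2.degree := hvi
    have hvj' : (cc k j * v.1.1 + v.1.2).degree < v.1.2.degree := hvj
    have h2 : ((cc k i - cc k j) * v.1.1).degree < v.1.2.degree := by
      have : (cc k i - cc k j) * v.1.1 =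
          (cc k i * v.1.1 + v.1.2) - (cc k j * v.1.1 + v.1.2) := by ring
      rw [this]
      exact (degree_sub_le _ _).trans_lt (max_lt hvi' hvj')
    rw [degree_mul, degree_cc_sub k hij, ← h1.1] at h2
    exact lt_irrefl _ h2
  · intro i j
    rw [Set.disjoint_left]
    intro v hvi hvj
    obtain ⟨h1, h2⟩ := XX_deg hvi
    obtain ⟨h3, h4⟩ := YY_deg hvj
    have h5 := wb_lt h2 k
    rw [← h1] at h5
    have h6 := wb_lt h4 k
    rw [← h3] at h6
    exact lt_asymm h5 h6
  · rintro j _ ⟨v, hv, rfl⟩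
    show ((aa k j • v).1.1 - cc k j * (aa k j • v).1.2).degree < (cc k j * (aa k j • v).1.2).degree
    have e2 : (aa k j • v).1.2 = v.1.2 + cc k j * v.1.1 := rfl
    have e1 : (aa k j • v).1.1 = v.1.1 + cc k j * (v.1.2 + cc k j * v.1.1) := rfl
    rw [e1, e2]
    have e3 : v.1.1 + cc k j * (v.1.2 + cc k j * v.1.1) - cc k j * (v.1.2 + cc k j * v.1.1) = v.1.1 := by
      ring
    rw [e3]
    have hv' : ¬ (cc k j * v.1.1 + v.1.2).degree < v.1.2.degree := hv
    rw [not_lt, add_comm] at hv'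
    set s := v.1.2 + cc k j * v.1.1 with hs
    by_contra hcon
    rw [not_lt, degree_mul, degree_cc] at hcon
    rcases eq_or_ne v.1.1 0 with h0 | h0
    · rw [h0, degree_zero, le_bot_iff, WithBot.add_eq_bot] at hcon
      rcases hcon with h | h
      · exact absurd h (WithBot.coe_ne_bot)
      · rw [degree_eq_bot] at h
        rw [h, degree_zero, le_bot_iff, degree_eq_bot] at hv'
        exact v.2 (Prod.ext h0 hv')
    · have hb : v.1.1.degree ≠ ⊥ := by rwa [Ne, degree_eq_bot]
      have h1 : v.1.2.degree < (cc k j * v.1.1).degree := by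
        rw [degree_mul, degree_cc]
        exact lt_of_le_of_lt (hv'.trans ((wb_le _ k).trans hcon)) (wb_lt hb k)
      have h2 : s.degree = (cc k j * v.1.1).degree := by
        rw [hs]; exact degree_add_eq_right_of_degree_lt h1
      rw [h2, degree_mul, degree_cc] at hcon
      have h3 := wb_lt hb k
      have h4 : ((k + 1 : ℕ) : WithBot ℕ) + v.1.1.degree ≤
          ((k + 1 : ℕ) : WithBot ℕ) + (((k + 1 : ℕ) : WithBot ℕ) + v.1.1.degree) := wb_le _ k
      exact absurd (h3.trans_le (h4.trans hcon)) (lt_irrefl _)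
  · rintro j _ ⟨v, hv, rfl⟩
    show (cc k j * ((aa k)⁻¹ j • v).1.1 + ((aa k)⁻¹ j • v).1.2).degree < ((aa k)⁻¹ j • v).1.2.degree
    have e1 : ((aa k)⁻¹ j • v).1.1 = v.1.1 - cc k j * v.1.2 := rfl
    have e2 : ((aa k)⁻¹ j • v).1.2 = v.1.2 - cc k j * (v.1.1 - cc k j * v.1.2) := rfl
    rw [e1, e2]
    have hv' : ¬ (v.1.1 - cc k j * v.1.2).degree < (cc k j * v.1.2).degree := hv
    rw [not_lt] at hv'
    set r := v.1.1 - cc k j * v.1.2 with hr
    have e3 : cc k j * r + (v.1.2 - cc k j * r) = v.1.2 := by ring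
    rw [e3]
    have h1 : v.1.2.degree < (cc k j * r).degree := by
      rw [degree_mul, degree_cc]
      rcases eq_or_ne r 0 with h0 | h0
      · exfalso
        rw [h0, degree_zero, le_bot_iff, degree_mul, WithBot.add_eq_bot, degree_cc] at hv'
        rcases hv' with h | h
        · exact absurd h (WithBot.coe_ne_bot)
        · rw [degree_eq_bot] at h
          rw [hr, h, mul_zero, sub_zero] at h0
          exact v.2 (Prod.ext h0 h)
      · have hb : r.degree ≠ ⊥ := by rwa [Ne, degree_eq_bot]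
        rw [degree_mul, degree_cc] at hv'
        exact lt_of_le_of_lt ((wb_le _ k).trans hv') (wb_lt hb k)
    rw [degree_sub_eq_right_of_degree_lt h1]
    exact h1

/-- the homomorphism given by the free pair of matrices -/
noncomputable def theta0 (k : ℕ) : FreeGroup (Fin 2) →* SL3 := FreeGroup.lift (eta k)

lemma theta0_mulVec (k : ℕ) (w : FreeGroup (Fin 2)) : ∀ v : RR × RR,
    (theta0 k w).1 *ᵥ ![v.1, v.2, 0] =
      ![(FreeGroup.lift (aa k) w v).1, (FreeGroup.lift (aa k) w v).2, 0] := by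
  have hgen : ∀ j (v : RR × RR), (eta k j).1 *ᵥ ![v.1, v.2, 0] =
      ![(aa k j v).1, (aa k j v).2, 0] := by
    intro j v
    have e2 : (aa k j v).2 = v.2 + cc k j * v.1 := rfl
    have e1 : (aa k j v).1 = v.1 + cc k j * (v.2 + cc k j * v.1) := rfl
    rw [e1, e2]
    have h1 : (eta k j).1 = (1 + Matrix.single 0 1 (cc k j)) * (1 + Matrix.single 1 0 (cc k j)) := by
      simp only [eta, tv, Matrix.SpecialLinearGroup.coe_mul, transvection_coe, cc]
    rw [h1, ← Matrix.mulVec_mulVec]
    funext i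
    fin_cases i <;>
    simp [Matrix.mulVec, dotProduct, Fin.sum_univ_three, Matrix.single_apply, Matrix.one_apply,
      -mul_eq_mul_left_iff] <;>
    ring
  have hinv : ∀ j (v : RR × RR), ((eta k j)⁻¹ : SL3).1 *ᵥ ![v.1, v.2, 0] =
      ![((aa k j)⁻¹ v).1, ((aa k j)⁻¹ v).2, 0] := by
    intro j v
    have h1 := hgen j ((aa k j)⁻¹ v)
    have h2 : aa k j ((aa k j)⁻¹ v) = v := (aa k j).apply_symm_apply v
    rw [h2] at h1
    rw [← h1, Matrix.mulVec_mulVec, ← Matrix.SpecialLinearGroup.coe_mul, inv_mul_cancel,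
      Matrix.SpecialLinearGroup.coe_one, Matrix.one_mulVec]
  induction w using FreeGroup.induction_on with
  | C1 => intro v; simp
  | of j =>
    intro v
    have : (pure j : FreeGroup (Fin 2)) = FreeGroup.of j := rfl
    simp only [theta0, FreeGroup.lift_apply_of]
    exact hgen j v
  | inv_of j _ =>
    intro v
    simp only [theta0, map_inv, FreeGroup.lift_apply_of]
    exact hinv j v
  | mul x y ihx ihy =>
    intro v
    rw [map_mul, map_mul, Matrix.SpecialLinearGroup.coe_mul, ← Matrix.mulVec_mulVec, ihy]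
    exact ihx _

lemma theta0_injective (k : ℕ) {w : FreeGroup (Fin 2)} (h : theta0 k w = 1) : w = 1 := by
  apply lift_aa_injective k
  rw [map_one]
  refine LinearEquiv.ext (fun v => ?_)
  have h1 := theta0_mulVec k w v
  rw [h, Matrix.SpecialLinearGroup.coe_one, Matrix.one_mulVec] at h1
  have h2 := congrFun h1 0
  have h3 := congrFun h1 1
  simp at h2 h3
  exact (Prod.ext h2 h3).symm

end Pool.Agent.Helper47.Roe
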