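import Mathlib
import Pool.Agent.Helper47.Roe.Matrices

set_option autoImplicit false

namespace Pool.Agent.Helper47.Roe

open Polynomial

/-- letters: three expander generators, two holonomy generators -/
abbrev Let := Fin 3 ⊕ Fin 2

/-- the free group on the letters -/
abbrev FF := FreeGroup Let

/-- first coordinate -/
noncomputable def phi1 : FF →* Gam := FreeGroup.lift (Sum.elim xg (fun _ => 1))

/-- second coordinate -/
def phi2 : FF →* FreeGroup (Fin 2) := FreeGroup.lift (Sum.elim (fun _ => 1) FreeGroup.of)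

lemma exists_quotient (R : ℕ) : ∃ (Q : Type) (_ : Group Q) (_ : Finite Q) (r : Gam →* Q)
    (θ : FreeGroup (Fin 2) →* Gam), Function.Surjective r ∧
    ∀ w : FF, w.norm ≤ R → ∀ s : Q, r (phi1 w) * s * (r (θ (phi2 w)))⁻¹ = s →
      phi1 w = 1 ∧ phi2 w = 1 := by
  set n := 2 * (R + 1) * R + R + 2 with hn
  let θ : FreeGroup (Fin 2) →* Gam := FreeGroup.lift (fun j => ⟨eta R j, eta_mem R j⟩)
  have hθ : ∀ w, ((θ w : Gam) : SL3) = theta0 R w := by
    intro w
    have : Gam.subtype.comp θ = theta0 R := by
      apply FreeGroup.ext_hom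
      intro j
      simp [θ, theta0]
    exact DFunLike.congr_fun this w
  have hfin : Finite (Gam.map (red n)) := by
    have : Finite (Matrix.SpecialLinearGroup (Fin 3) (TR n)) := by
      have h1 : Finite (Matrix (Fin 3) (Fin 3) (TR n)) := inferInstanceAs (Finite (Fin 3 → Fin 3 → TR n))
      exact Subtype.finite
    infer_instance
  refine ⟨Gam.map (red n), inferInstance, hfin, (red n).subgroupMap Gam, θ,
    (red n).subgroupMap_surjective Gam, ?_⟩
  intro w hw s hs
  obtain ⟨s', rfl⟩ := (red n).subgroupMap_surjective Gam s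
  -- degree bounds
  have hdeg1 : Deg R (phi1 w : SL3) := by
    have h1 : ∀ a, Deg 1 ((Gam.subtype.comp phi1) (FreeGroup.of a)) ∧
        Deg 1 ((Gam.subtype.comp phi1) (FreeGroup.of a))⁻¹ := by
      intro a
      have hone : ∀ {i j : Fin 3} (h : i ≠ j) {c : RR} (_ : c.natDegree ≤ 1),
          Deg 1 (tv h c) ∧ Deg 1 (tv h c)⁻¹ := by
        intro i j h c hc
        refine ⟨deg_tv h hc, ?_⟩
        have : (tv h c)⁻¹ = tv h (-c) := Matrix.SpecialLinearGroup.transvection_inv h c
        rw [this]
        exact deg_tv h (by rwa [natDegree_neg])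
      rcases a with i | j
      · have : (Gam.subtype.comp phi1) (FreeGroup.of (Sum.inl i)) = gen3 i := by
          simp [phi1, xg]
        rw [this]
        fin_cases i
        · exact hone h01 (by simp)
        · exact hone h12 (by simp)
        · exact hone h20 (by simp)
      · have : (Gam.subtype.comp phi1) (FreeGroup.of (Sum.inr j)) = 1 := by
          simp [phi1]
        rw [this, inv_one]
        exact ⟨Deg.one.mono (by norm_num), Deg.one.mono (by norm_num)⟩
    have h2 := Deg.free (Gam.subtype.comp phi1) h1 w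
    rw [one_mul] at h2
    exact h2.mono hw
  have hdeg2 : Deg (2 * (R + 1) * R) (theta0 R (phi2 w)) := by
    have h1 : ∀ a, Deg (2 * (R + 1)) (((theta0 R).comp phi2) (FreeGroup.of a)) ∧
        Deg (2 * (R + 1)) (((theta0 R).comp phi2) (FreeGroup.of a))⁻¹ := by
      intro a
      rcases a with i | j
      · have : ((theta0 R).comp phi2) (FreeGroup.of (Sum.inl i)) = 1 := by
          simp [phi2]
        rw [this, inv_one]
        exact ⟨Deg.one.mono (Nat.zero_le _), Deg.one.mono (Nat.zero_le _)⟩
      · have : ((theta0 R).comp phi2) (FreeGroup.of (Sum.inr j)) = eta R j := by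
          simp [phi2, theta0]
        rw [this]
        have hd : (C ((j : ℕ) + 1 : ZMod 5) * (X : RR) ^ (R + 1)).natDegree ≤ R + 1 :=
          natDegree_C_mul_X_pow_le _ _
        have hsum : 2 * (R + 1) = (R + 1) + (R + 1) := by ring
        rw [hsum]
        refine ⟨(deg_tv h01 hd).mul (deg_tv h10 hd), ?_⟩
        rw [eta, mul_inv_rev]
        have e1 : (tv h10 (C ((j : ℕ) + 1 : ZMod 5) * (X : RR) ^ (R + 1)))⁻¹ =
            tv h10 (-(C ((j : ℕ) + 1 : ZMod 5) * (X : RR) ^ (R + 1))) :=
          Matrix.SpecialLinearGroup.transvection_inv h10 _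
        have e2 : (tv h01 (C ((j : ℕ) + 1 : ZMod 5) * (X : RR) ^ (R + 1)))⁻¹ =
            tv h01 (-(C ((j : ℕ) + 1 : ZMod 5) * (X : RR) ^ (R + 1))) :=
          Matrix.SpecialLinearGroup.transvection_inv h01 _
        rw [e1, e2]
        exact (deg_tv h10 (by rwa [natDegree_neg])).mul (deg_tv h01 (by rwa [natDegree_neg]))
    have h2 := Deg.free ((theta0 R).comp phi2) h1 w
    exact h2.mono (Nat.mul_le_mul_left _ hw)
  -- the congruence
  have hs1 : (red n).subgroupMap Gam (phi1 w) =
      (red n).subgroupMap Gam (s' * θ (phi2 w) * s'⁻¹) := by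
    rw [map_mul, map_mul, map_inv]
    rw [mul_inv_eq_iff_eq_mul] at hs
    rw [eq_mul_inv_iff_mul_eq]
    exact hs
  have hs2 : red n (phi1 w : SL3) = red n ((s' : SL3) * theta0 R (phi2 w) * (s' : SL3)⁻¹) := by
    have := congrArg Subtype.val hs1
    rw [← hθ]
    exact this
  have hred : red (R + 1) (theta0 R (phi2 w)) = 1 := by
    have : (red (R + 1)).comp (theta0 R) = 1 := by
      apply FreeGroup.ext_hom
      intro j
      rw [MonoidHom.comp_apply, theta0, FreeGroup.lift_apply_of, red_eta le_rfl]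
      rfl
    exact DFunLike.congr_fun this (phi2 w)
  have hs3 := red_mono (show R + 1 ≤ n by rw [hn]; omega) hs2
  rw [map_mul (red (R + 1)), map_mul (red (R + 1)), hred, mul_one, map_inv, mul_inv_cancel] at hs3
  have h1 : (phi1 w : SL3) = 1 := eq_one_of_red hdeg1 (Nat.lt_succ_self R) hs3
  have h2 : red n (theta0 R (phi2 w)) = 1 := by
    rw [h1, map_one, map_mul, map_mul, map_inv] at hs2
    have h3 := (mul_inv_eq_one.1 hs2.symm)
    exact (mul_eq_left.1 h3)
  have h3 : theta0 R (phi2 w) = 1 := eq_one_of_red hdeg2 (by rw [hn]; omega) h2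
  exact ⟨Subtype.ext h1, theta0_injective R h3⟩

end Pool.Agent.Helper47.Roe
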