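import Mathlib
import Pool.Agent.Helper47.Roe.Lp
import Pool.Agent.Helper47.Roe.Quot

set_option autoImplicit false

namespace Pool.Agent.Helper47.Roe

open scoped InnerProductSpace
open Finset

/-- A disjoint union of finite blocks on which the free group acts transitively. -/
structure Sys (S : Type) where
  idx : S → ℕ
  A : FF →* Equiv.Perm S
  inv : ∀ w s, idx (A w s) = idx s
  tr : ∀ s t, idx s = idx t → ∃ w, A w s = t
  fin : ∀ m, {s | idx s = m}.Finite

lemma finite_ball (n : ℕ) : {w : FF | w.norm ≤ n}.Finite := by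
  have h : {w : FF | w.norm ≤ n} = FreeGroup.toWord ⁻¹' {l | l.length ≤ n} := rfl
  rw [h]
  exact (List.finite_length_le _ n).preimage (FreeGroup.toWord_injective.injOn)

namespace Sys

variable {S : Type} (P : Sys S)

/-- word distance in a block -/
noncomputable def gd (s t : S) : ℕ := sInf {n | ∃ w : FF, w.norm = n ∧ P.A w s = t}

lemma gd_spec {s t : S} (h : P.idx s = P.idx t) : ∃ w : FF, w.norm = P.gd s t ∧ P.A w s = t := by
  have hne : {n | ∃ w : FF, w.norm = n ∧ P.A w s = t}.Nonempty := by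
    obtain ⟨w, hw⟩ := P.tr s t h
    exact ⟨w.norm, w, rfl, hw⟩
  exact Nat.sInf_mem hne

lemma gd_le {s t : S} {w : FF} (h : P.A w s = t) : P.gd s t ≤ w.norm :=
  Nat.sInf_le ⟨w, rfl, h⟩

lemma gd_self (s : S) : P.gd s s = 0 := by
  have := P.gd_le (s := s) (t := s) (w := 1) (by simp)
  simpa using this

lemma gd_comm_le {s t : S} (h : P.idx s = P.idx t) : P.gd t s ≤ P.gd s t := by
  obtain ⟨w, hw, hst⟩ := P.gd_spec h
  rw [← hw, ← FreeGroup.norm_inv_eq]
  apply P.gd_le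
  rw [map_inv, ← hst]
  exact (P.A w).symm_apply_apply s

lemma gd_comm {s t : S} (h : P.idx s = P.idx t) : P.gd s t = P.gd t s :=
  le_antisymm (P.gd_comm_le h.symm) (P.gd_comm_le h)

lemma gd_triangle {s t u : S} (h : P.idx s = P.idx t) (h' : P.idx t = P.idx u) :
    P.gd s u ≤ P.gd s t + P.gd t u := by
  obtain ⟨w, hw, hst⟩ := P.gd_spec h
  obtain ⟨v, hv, htu⟩ := P.gd_spec h'
  have : P.A (v * w) s = u := by
    rw [map_mul, Equiv.Perm.mul_apply, hst, htu]
  refine (P.gd_le this).trans ((FreeGroup.norm_mul_le _ _).trans ?_)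
  rw [hw, hv, add_comm]

lemma eq_of_gd {s t : S} (h : P.idx s = P.idx t) (h0 : P.gd s t = 0) : s = t := by
  obtain ⟨w, hw, hst⟩ := P.gd_spec h
  rw [h0, FreeGroup.norm_eq_zero] at hw
  rw [hw, map_one] at hst
  exact hst

lemma exists_D (m : ℕ) : ∃ d : ℕ, m ≤ d ∧ ∀ s t, P.idx s = m → P.idx t = m → P.gd s t ≤ d := by
  have hf : ({s | P.idx s = m} ×ˢ {s | P.idx s = m}).Finite := (P.fin m).prod (P.fin m)
  have hb : BddAbove ((fun q : S × S => P.gd q.1 q.2) '' ({s | P.idx s = m} ×ˢ {s | P.idx s = m})) :=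
    (hf.image _).bddAbove
  obtain ⟨d, hd⟩ := hb
  refine ⟨max m d, le_max_left _ _, fun s t hs ht => ?_⟩
  exact (hd ⟨(s, t), ⟨hs, ht⟩, rfl⟩).trans (le_max_right _ _)

/-- block separation -/
noncomputable def D (m : ℕ) : ℕ := (P.exists_D m).choose

lemma le_D (m : ℕ) : m ≤ P.D m := (P.exists_D m).choose_spec.1

lemma gd_le_D {s t : S} (h : P.idx s = P.idx t) : P.gd s t ≤ P.D (P.idx s) :=
  (P.exists_D (P.idx s)).choose_spec.2 s t rfl h.symm

/-- the metric, natural number valued -/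
noncomputable def dn (s t : S) : ℕ :=
  if P.idx s = P.idx t then P.gd s t else P.D (P.idx s) + P.D (P.idx t)

lemma dn_self (s : S) : P.dn s s = 0 := by
  rw [dn, if_pos rfl, gd_self]

lemma dn_comm (s t : S) : P.dn s t = P.dn t s := by
  unfold dn
  by_cases h : P.idx s = P.idx t
  · rw [if_pos h, if_pos h.symm, P.gd_comm h]
  · rw [if_neg h, if_neg (Ne.symm h), add_comm]

lemma dn_triangle (s t u : S) : P.dn s u ≤ P.dn s t + P.dn t u := by
  unfold dn
  by_cases h1 : P.idx s = P.idx t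
  · by_cases h2 : P.idx t = P.idx u
    · rw [if_pos h1, if_pos h2, if_pos (h1.trans h2)]
      exact P.gd_triangle h1 h2
    · rw [if_pos h1, if_neg h2, if_neg (fun h => h2 (h1.symm.trans h)), h1]
      omega
  · by_cases h2 : P.idx t = P.idx u
    · rw [if_neg h1, if_pos h2, if_neg (fun h => h1 (h.trans h2.symm)), h2]
      omega
    · rw [if_neg h1, if_neg h2]
      by_cases h3 : P.idx s = P.idx u
      · rw [if_pos h3]
        have := P.gd_le_D h3
        omega
      · rw [if_neg h3]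
        omega

lemma eq_of_dn {s t : S} (h : P.dn s t = 0) : s = t := by
  unfold dn at h
  by_cases h1 : P.idx s = P.idx t
  · rw [if_pos h1] at h
    exact P.eq_of_gd h1 h
  · rw [if_neg h1] at h
    have e1 := P.le_D (P.idx s)
    have e2 := P.le_D (P.idx t)
    omega

/-- the metric space -/
noncomputable def metric : MetricSpace S where
  dist s t := (P.dn s t : ℝ)
  dist_self s := by
    show (P.dn s s : ℝ) = 0
    rw [dn_self]; simp
  dist_comm s t := by
    show (P.dn s t : ℝ) = (P.dn t s : ℝ)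
    rw [dn_comm]
  dist_triangle s t u := by
    show (P.dn s u : ℝ) ≤ (P.dn s t : ℝ) + (P.dn t u : ℝ)
    exact_mod_cast P.dn_triangle s t u
  eq_of_dist_eq_zero {s t} h := by
    have h' : (P.dn s t : ℝ) = 0 := h
    exact P.eq_of_dn (by exact_mod_cast h')

lemma dn_act (w : FF) (s : S) : P.dn s (P.A w s) ≤ w.norm := by
  unfold dn
  rw [if_pos (P.inv w s).symm]
  exact P.gd_le rfl

lemma finite_idx_le (n : ℕ) : {s | P.idx s ≤ n}.Finite := by
  have : {s | P.idx s ≤ n} = ⋃ m ∈ Set.Iic n, {s | P.idx s = m} := by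
    ext s; simp
  rw [this]
  exact (Set.finite_Iic n).biUnion (fun m _ => P.fin m)

lemma ulf (r : ℝ) : ∃ N : ℕ, ∀ x : S,
    ({y | (P.dn y x : ℝ) ≤ r}).Finite ∧ ({y | (P.dn y x : ℝ) ≤ r}).ncard ≤ N := by
  set n := ⌊r⌋₊ with hn
  refine ⟨{w : FF | w.norm ≤ n}.ncard + {s | P.idx s ≤ n}.ncard, fun x => ?_⟩
  have hsub : {y | (P.dn y x : ℝ) ≤ r} ⊆
      ((fun w : FF => P.A w x) '' {w : FF | w.norm ≤ n}) ∪ {s | P.idx s ≤ n} := by
    intro y hy
    have hy' : P.dn y x ≤ n := Nat.le_floor hy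
    unfold dn at hy'
    by_cases h : P.idx y = P.idx x
    · rw [if_pos h] at hy'
      left
      rw [P.gd_comm h] at hy'
      obtain ⟨w, hw, hxy⟩ := P.gd_spec h.symm
      exact ⟨w, by rw [Set.mem_ofPred_eq, hw]; exact hy', hxy⟩
    · rw [if_neg h] at hy'
      right
      have := P.le_D (P.idx y)
      show P.idx y ≤ n
      omega
  have hfin := ((finite_ball n).image (fun w : FF => P.A w x)).union (P.finite_idx_le n)
  refine ⟨hfin.subset hsub, ?_⟩
  refine (Set.ncard_le_ncard hsub hfin).trans ((Set.ncard_union_le _ _).trans ?_)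
  exact Nat.add_le_add_right (Set.ncard_image_le (finite_ball n)) _

end Sys

section FP

variable {S : Type} [DecidableEq S]

/-- finite propagation operators -/
def FP (d : S → S → ℕ) : Set (L2 S →L[ℂ] L2 S) :=
  {T | ∃ r : ℝ, ∀ x x' : S, r < (d x x' : ℝ) → (T (lp.single 2 x (1 : ℂ))) x' = 0}

lemma FP.add {d : S → S → ℕ} {T T' : L2 S →L[ℂ] L2 S} (h : T ∈ FP d) (h' : T' ∈ FP d) :
    T + T' ∈ FP d := by
  obtain ⟨r, hr⟩ := h
  obtain ⟨r', hr'⟩ := h'
  refine ⟨max r r', fun x x' hx => ?_⟩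
  have h1 := hr x x' ((le_max_left _ _).trans_lt hx)
  have h2 := hr' x x' ((le_max_right _ _).trans_lt hx)
  show ((T (lp.single 2 x (1 : ℂ)) + T' (lp.single 2 x (1 : ℂ)) : L2 S)) x' = 0
  rw [lp.coeFn_add, Pi.add_apply, h1, h2, add_zero]

lemma FP.smul {d : S → S → ℕ} {T : L2 S →L[ℂ] L2 S} (c : ℂ) (h : T ∈ FP d) : c • T ∈ FP d := by
  obtain ⟨r, hr⟩ := h
  refine ⟨r, fun x x' hx => ?_⟩
  show ((c • T (lp.single 2 x (1 : ℂ)) : L2 S)) x' = 0
  rw [lp.coeFn_smul, Pi.smul_apply, hr x x' hx, smul_zero]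

lemma FP.zero {d : S → S → ℕ} : (0 : L2 S →L[ℂ] L2 S) ∈ FP d :=
  ⟨0, fun x x' _ => rfl⟩

lemma FP.sum {d : S → S → ℕ} {ι : Type*} (s : Finset ι) (f : ι → (L2 S →L[ℂ] L2 S))
    (h : ∀ i ∈ s, f i ∈ FP d) : ∑ i ∈ s, f i ∈ FP d := by
  classical
  induction s using Finset.induction_on with
  | empty => simpa using FP.zero
  | insert a s ha ih =>
    rw [Finset.sum_insert ha]
    exact FP.add (h a (Finset.mem_insert_self _ _))
      (ih (fun i hi => h i (Finset.mem_insert_of_mem hi)))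

variable (P : Sys S)

lemma FP.wop (b : S → ℂ) (C : ℝ) (hC : 0 ≤ C) (hb : ∀ s, ‖b s‖ ≤ C) (w : FF) :
    Roe.wop b C hC hb (P.A w) ∈ FP P.dn := by
  refine ⟨w.norm, fun x x' hx => ?_⟩
  rw [wop_single, if_neg]
  rintro rfl
  have := P.dn_act w x
  have h2 : ((P.dn x (P.A w x) : ℕ) : ℝ) ≤ (w.norm : ℝ) := by exact_mod_cast this
  linarith

lemma rho_single (σ : Equiv.Perm S) (x : S) :
    rho S σ (lp.single 2 x (1 : ℂ)) = lp.single 2 (σ x) (1 : ℂ) := by
  ext s
  rw [rho_apply, lp.single_apply, lp.single_apply]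
  by_cases h : s = σ x
  · subst h
    have : σ⁻¹ (σ x) = x := σ.symm_apply_apply x
    rw [this]; simp
  · have : σ⁻¹ s ≠ x := by
      rintro rfl
      exact h (σ.apply_symm_apply s).symm
    rw [Pi.single_eq_of_ne this, Pi.single_eq_of_ne h]

lemma FP.mul_rho {T : L2 S →L[ℂ] L2 S} (h : T ∈ FP P.dn) (w : FF) :
    T * rho S (P.A w) ∈ FP P.dn := by
  obtain ⟨r, hr⟩ := h
  refine ⟨r + w.norm, fun x x' hx => ?_⟩
  rw [mul_apply_eq_comp, rho_single]
  apply hr
  have h1 := P.dn_triangle x (P.A w x) x'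
  have h2 := P.dn_act w x
  have h3 : (P.dn x x' : ℝ) ≤ (P.dn x (P.A w x) : ℝ) + (P.dn (P.A w x) x' : ℝ) := by
    exact_mod_cast h1
  have h4 : ((P.dn x (P.A w x) : ℕ) : ℝ) ≤ (w.norm : ℝ) := by exact_mod_cast h2
  linarith

lemma FP.mul_avg {T : L2 S →L[ℂ] L2 S} (h : T ∈ FP P.dn) (w : FF) :
    T * avg (rho S) (P.A w) ∈ FP P.dn := by
  rw [avg, mul_smul_comm, Finset.mul_sum]
  apply FP.smul
  apply FP.sum
  intro a _
  rw [← map_pow]
  exact FP.mul_rho P h _

lemma FP.mul_T {T : L2 S →L[ℂ] L2 S} (h : T ∈ FP P.dn) (k : ℕ) :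
    T * ((3 : ℂ)⁻¹ • ∑ i : Fin 3, avg (rho S) (P.A (FreeGroup.of (Sum.inl i)))) ^ k ∈ FP P.dn := by
  induction k with
  | zero => simpa using h
  | succ k ih =>
    rw [pow_succ, ← mul_assoc, mul_smul_comm, Finset.mul_sum]
    apply FP.smul
    apply FP.sum
    intro i _
    exact FP.mul_avg P ih _

lemma FP.finite_support {T : L2 S →L[ℂ] L2 S} (F : Set (S × S)) (hF : F.Finite)
    (h : ∀ x x', (x, x') ∉ F → (T (lp.single 2 x (1 : ℂ))) x' = 0) (d : S → S → ℕ) : T ∈ FP d := by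
  have hb : BddAbove ((fun q : S × S => (d q.1 q.2 : ℝ)) '' F) := (hF.image _).bddAbove
  obtain ⟨r, hr⟩ := hb
  refine ⟨r, fun x x' hx => h x x' (fun hmem => ?_)⟩
  exact absurd (hr ⟨(x, x'), hmem, rfl⟩) (not_le.2 hx)

end FP

end Pool.Agent.Helper47.Roe
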