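import Mathlib
import Pool.Agent.Helper47.Roe.Spaces

set_option autoImplicit false

namespace Pool.Agent.Helper47.Roe

open scoped InnerProductSpace
open Finset

/-- compatible pair of systems -/
structure Cover {X Y : Type} (PX : Sys X) (PY : Sys Y) (p : Y → X) : Prop where
  equi : ∀ w y, p (PY.A w y) = PX.A w (p y)
  five : ∀ i : Fin 3, PY.A (FreeGroup.of (Sum.inl i)) ^ 5 = 1
  heis : ∀ i j : Fin 3, i ≠ j →
    Heis (PY.A (FreeGroup.of (Sum.inl i))) (PY.A (FreeGroup.of (Sum.inl j)))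
  triv : ∀ (i : Fin 3) (x : X), PX.A (FreeGroup.of (Sum.inl i)) x = x
  trans : ∀ h : Y → ℂ, (∀ (i : Fin 3) (y : Y), h (PY.A (FreeGroup.of (Sum.inl i)) y) = h y) →
    ∀ y y', p y = p y' → h y = h y'

section

variable {X Y : Type} {PX : Sys X} {PY : Sys Y} {p : Y → X}
  [hfin : ∀ x, Finite {y // p y = x}] [hne : ∀ x, Nonempty {y // p y = x}]

/-- the averaging operator -/
noncomputable def MM (PY : Sys Y) : L2 Y →L[ℂ] L2 Y :=
  (3 : ℂ)⁻¹ • ∑ i : Fin 3, avg (rho Y) (PY.A (FreeGroup.of (Sum.inl i)))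

lemma MM_conv [DecidableEq X] (hc : Cover PX PY p) :
    ∃ μ : ℝ, 0 ≤ μ ∧ μ < 1 ∧ ∀ n : ℕ, ‖(MM PY) ^ n - EE p‖ ≤ μ ^ n := by
  have hρ : ∀ (g : Equiv.Perm Y) (v w : L2 Y), ⟪rho Y g v, w⟫_ℂ = ⟪v, rho Y g⁻¹ w⟫_ℂ :=
    fun g v w => rho_inner g v w
  have hε : (Real.sqrt (1 / 5)) ^ 2 = 1 / 5 := Real.sq_sqrt (by norm_num)
  have hε0 : 0 ≤ Real.sqrt (1 / 5) := Real.sqrt_nonneg _
  refine three_conv (ε := Real.sqrt (1 / 5)) (fun i => avg_isProj (rho Y) hρ (hc.five i)) ?_ ?_ ?_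
    (EE p) (EE_isProj p) ?_ ?_
  · nlinarith
  · linarith
  · intro i j hij v
    exact heis_pair_ineq (rho Y) hρ (hc.five i) (hc.five j) (hc.heis i j hij) hε0 hε v
  · intro v i
    apply avg_fix
    ext y
    rw [rho_apply, EE_apply, Uc_apply, Uc_apply]
    have h1 : p ((PY.A (FreeGroup.of (Sum.inl i)))⁻¹ y) = p y := by
      have h2 := hc.equi (FreeGroup.of (Sum.inl i)) ((PY.A (FreeGroup.of (Sum.inl i)))⁻¹ y)
      rw [hc.triv] at h2
      rw [← h2]
      congr 1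
      exact (PY.A (FreeGroup.of (Sum.inl i))).apply_symm_apply y
    rw [h1]
  · intro k hk
    apply EE_fix
    apply hc.trans
    intro i y
    have h1 := (avg_eq_iff (rho Y) (hc.five i) k).1 (hk i)
    have h2 : (rho Y (PY.A (FreeGroup.of (Sum.inl i))) k) (PY.A (FreeGroup.of (Sum.inl i)) y) =
        k (PY.A (FreeGroup.of (Sum.inl i)) y) := by rw [h1]
    rw [rho_apply] at h2
    rw [← h2]
    have h3 : (PY.A (FreeGroup.of (Sum.inl i)))⁻¹ ((PY.A (FreeGroup.of (Sum.inl i))) y) = y :=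
      (PY.A (FreeGroup.of (Sum.inl i))).symm_apply_apply y
    rw [h3]

lemma adj_Uc_single [DecidableEq X] [DecidableEq Y] (y : Y) :
    ContinuousLinearMap.adjoint (Uc p) (lp.single 2 y (1 : ℂ)) =
      (kap p (p y) : ℂ) • lp.single 2 (p y) (1 : ℂ) := by
  ext x
  have h1 : ⟪(lp.single 2 x (1 : ℂ) : L2 X),
      ContinuousLinearMap.adjoint (Uc p) (lp.single 2 y (1 : ℂ))⟫_ℂ =
      ⟪Uc p (lp.single 2 x (1 : ℂ)), (lp.single 2 y (1 : ℂ) : L2 Y)⟫_ℂ :=
    ContinuousLinearMap.adjoint_inner_right _ _ _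
  rw [lp.inner_single_left, lp.inner_single_right, Uc_single] at h1
  have h2 : ∀ z : ℂ, ⟪(1 : ℂ), z⟫_ℂ = z := fun z => by simp
  rw [h2] at h1
  rw [h1, lp.coeFn_smul, Pi.smul_apply, lp.single_apply]
  by_cases h : p y = x
  · subst h
    simp
  · rw [if_neg h, Pi.single_eq_of_ne (Ne.symm h)]
    simp

lemma norm_entry_le [DecidableEq X] (T : L2 X →L[ℂ] L2 X) (x x' : X) :
    ‖(T (lp.single 2 x (1 : ℂ))) x'‖ ≤ ‖T‖ := by
  refine (lp.norm_apply_le_norm (by norm_num) _ _).trans ?_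
  refine (T.le_opNorm _).trans ?_
  rw [lp.norm_single (by norm_num)]
  simp

lemma Uc_wop (hc : Cover PX PY p) (b : X → ℂ) (C : ℝ) (hC : 0 ≤ C) (hb : ∀ s, ‖b s‖ ≤ C)
    (w : FF) : Uc p ∘L wop b C hC hb (PX.A w) =
      wop (fun y => b (p y)) C hC (fun y => hb (p y)) (PY.A w) ∘L Uc p := by
  ext f y
  rw [ContinuousLinearMap.comp_apply, ContinuousLinearMap.comp_apply, Uc_apply, wop_apply,
    wop_apply, Uc_apply]
  have h1 : p ((PY.A w)⁻¹ y) = (PX.A w)⁻¹ (p y) := by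
    rw [← map_inv, ← map_inv]
    exact hc.equi _ _
  have h2 : kap p ((PX.A w)⁻¹ (p y)) = kap p (p y) := by
    rw [← h1]
    unfold kap
    congr 3
    -- fibres over x and A w x have the same cardinality
    refine Nat.card_congr ?_
    refine Equiv.subtypeEquiv (PY.A w) (fun z => ?_)
    rw [hc.equi, h1]
    constructor
    · intro h
      rw [h]
      exact (PX.A w).apply_symm_apply _
    · intro h
      rw [← h]
      exact ((PX.A w).symm_apply_apply _).symm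
  rw [h1, h2]
  ring

theorem main_mem [DecidableEq X] [DecidableEq Y] (hc : Cover PX PY p) {T : L2 X →L[ℂ] L2 X}
    (hT : T ∈ FP PX.dn) :
    Uc p ∘L T ∘L ContinuousLinearMap.adjoint (Uc p) ∈ closure (FP PY.dn) := by
  classical
  obtain ⟨r, hr⟩ := hT
  set n := ⌊r⌋₊ with hn
  have hr' : ∀ x x' : X, n < PX.dn x x' → (T (lp.single 2 x (1 : ℂ))) x' = 0 := by
    intro x x' h
    apply hr
    exact (Nat.floor_lt' (by omega)).1 h
  set t : X → X → ℂ := fun x x' => (T (lp.single 2 x (1 : ℂ))) x' with ht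
  set W : Finset FF := (finite_ball n).toFinset with hW
  have hWmem : ∀ w, w ∈ W ↔ w.norm ≤ n := fun w => by simp [hW]
  have hchoose : ∀ x x' : X, ∃ w : FF, PX.idx x = PX.idx x' → PX.dn x x' ≤ n →
      w ∈ W ∧ PX.A w x = x' := by
    intro x x'
    by_cases h : PX.idx x = PX.idx x'
    · obtain ⟨w, hw, hxx⟩ := PX.gd_spec h
      refine ⟨w, fun _ hd => ⟨?_, hxx⟩⟩
      rw [hWmem, hw]
      rwa [Sys.dn, if_pos h] at hd
    · exact ⟨1, fun h' => absurd h' h⟩
  choose c hcc using hchoose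
  have hC : 0 ≤ ‖T‖ := norm_nonneg _
  let b : FF → X → ℂ := fun w x' =>
    if c ((PX.A w)⁻¹ x') x' = w then t ((PX.A w)⁻¹ x') x' else 0
  have hb : ∀ w s, ‖b w s‖ ≤ ‖T‖ := by
    intro w s
    show ‖if c ((PX.A w)⁻¹ s) s = w then t ((PX.A w)⁻¹ s) s else 0‖ ≤ ‖T‖
    split_ifs
    · exact norm_entry_le T _ _
    · simp
  let T1 : L2 X →L[ℂ] L2 X := ∑ w ∈ W, wop (b w) ‖T‖ hC (hb w) (PX.A w)
  have hT1 : ∀ x x', (T1 (lp.single 2 x (1 : ℂ))) x' =
      if (c x x' ∈ W ∧ PX.A (c x x') x = x') then t x x' else 0 := by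
    intro x x'
    have h1 : (T1 (lp.single 2 x (1 : ℂ))) x' =
        ∑ w ∈ W, (wop (b w) ‖T‖ hC (hb w) (PX.A w) (lp.single 2 x (1 : ℂ))) x' := by
      show ((∑ w ∈ W, wop (b w) ‖T‖ hC (hb w) (PX.A w)) (lp.single 2 x (1 : ℂ)) : L2 X) x' = _
      rw [_root_.sum_apply, lp.coeFn_sum, Finset.sum_apply]
    rw [h1]
    have h2 : ∀ w ∈ W, (wop (b w) ‖T‖ hC (hb w) (PX.A w) (lp.single 2 x (1 : ℂ))) x' =
        if w = c x x' then (if PX.A (c x x') x = x' then t x x' else 0) else 0 := by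
      intro w _
      rw [wop_single]
      by_cases hw : PX.A w x = x'
      · rw [if_pos hw]
        have h3 : (PX.A w)⁻¹ x' = x := by
          rw [← hw]; exact (PX.A w).symm_apply_apply x
        show (if c ((PX.A w)⁻¹ x') x' = w then t ((PX.A w)⁻¹ x') x' else 0) = _
        rw [h3]
        by_cases h4 : c x x' = w
        · rw [if_pos h4, if_pos h4.symm, h4, if_pos hw]
        · rw [if_neg h4, if_neg (Ne.symm h4)]
      · rw [if_neg hw]
        by_cases h4 : w = c x x'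
        · rw [if_pos h4, ← h4, if_neg hw]
        · rw [if_neg h4]
    rw [Finset.sum_congr rfl h2, Finset.sum_ite_eq']
    by_cases h5 : c x x' ∈ W
    · by_cases h6 : PX.A (c x x') x = x' <;> simp [h5, h6]
    · simp [h5]
  let T2 : L2 X →L[ℂ] L2 X := T - T1
  have hT2 : ∀ x x', ¬ (PX.idx x ≤ n ∧ PX.idx x' ≤ n) → (T2 (lp.single 2 x (1 : ℂ))) x' = 0 := by
    intro x x' hx
    show ((T (lp.single 2 x (1 : ℂ)) - T1 (lp.single 2 x (1 : ℂ)) : L2 X)) x' = 0
    rw [lp.coeFn_sub, Pi.sub_apply, hT1]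
    by_cases h1 : PX.dn x x' ≤ n
    · have h2 : PX.idx x = PX.idx x' := by
        by_contra h3
        apply hx
        rw [Sys.dn, if_neg h3] at h1
        have e1 := PX.le_D (PX.idx x)
        have e2 := PX.le_D (PX.idx x')
        omega
      rw [if_pos (hcc x x' h2 h1)]
      exact sub_self _
    · have h3 := hr' x x' (not_le.1 h1)
      rw [h3]
      show 0 - (if (c x x' ∈ W ∧ PX.A (c x x') x = x') then (T (lp.single 2 x (1 : ℂ))) x' else 0) = 0
      rw [h3]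
      simp
  -- conjugated pieces
  let S : L2 Y →L[ℂ] L2 Y :=
    ∑ w ∈ W, wop (fun y => b w (p y)) ‖T‖ hC (fun y => hb w (p y)) (PY.A w)
  have hS : S ∈ FP PY.dn := FP.sum _ _ (fun w _ => FP.wop PY _ _ _ _ _)
  have hUT1 : Uc p ∘L T1 = S ∘L Uc p := by
    show Uc p ∘L (∑ w ∈ W, wop (b w) ‖T‖ hC (hb w) (PX.A w)) = (∑ w ∈ W, _) ∘L Uc p
    refine ContinuousLinearMap.ext (fun f => ?_)
    simp only [ContinuousLinearMap.comp_apply, _root_.sum_apply, map_sum]
    refine Finset.sum_congr rfl (fun w _ => ?_)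
    exact DFunLike.congr_fun (Uc_wop hc (b w) ‖T‖ hC (hb w) w) f
  let S2 : L2 Y →L[ℂ] L2 Y := Uc p ∘L T2 ∘L ContinuousLinearMap.adjoint (Uc p)
  have hS2 : S2 ∈ FP PY.dn := by
    have hA : {y : Y | PX.idx (p y) ≤ n}.Finite := by
      have h1 : {y : Y | PX.idx (p y) ≤ n} ⊆ ⋃ x ∈ {x | PX.idx x ≤ n}, {y | p y = x} := by
        intro y hy
        simp only [Set.mem_iUnion]
        exact ⟨p y, hy, rfl⟩
      refine Set.Finite.subset ((PX.finite_idx_le n).biUnion (fun x _ => ?_)) h1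
      exact hfin x
    refine FP.finite_support ({y : Y | PX.idx (p y) ≤ n} ×ˢ {y : Y | PX.idx (p y) ≤ n})
      (hA.prod hA) ?_ _
    intro y y' hy
    show (Uc p (T2 (ContinuousLinearMap.adjoint (Uc p) (lp.single 2 y (1 : ℂ))))) y' = 0
    rw [adj_Uc_single, map_smul, Uc_apply, lp.coeFn_smul, Pi.smul_apply, hT2]
    · simp
    · exact hy
  have hsum : Uc p ∘L T ∘L ContinuousLinearMap.adjoint (Uc p) = S * EE p + S2 := by
    have h1 : T = T1 + T2 := by
      show T = T1 + (T - T1)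
      abel
    have h2 : S * EE p = Uc p ∘L T1 ∘L ContinuousLinearMap.adjoint (Uc p) := by
      show S ∘L (Uc p ∘L ContinuousLinearMap.adjoint (Uc p)) = _
      rw [← ContinuousLinearMap.comp_assoc, ← hUT1, ContinuousLinearMap.comp_assoc]
    rw [h2]
    show Uc p ∘L T ∘L ContinuousLinearMap.adjoint (Uc p) =
      Uc p ∘L T1 ∘L ContinuousLinearMap.adjoint (Uc p) + Uc p ∘L T2 ∘L ContinuousLinearMap.adjoint (Uc p)
    ext f y
    have h3 : T (ContinuousLinearMap.adjoint (Uc p) f) =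
        T1 (ContinuousLinearMap.adjoint (Uc p) f) + T2 (ContinuousLinearMap.adjoint (Uc p) f) := by
      conv_lhs => rw [h1]
      rfl
    show (Uc p (T (ContinuousLinearMap.adjoint (Uc p) f))) y = _
    rw [h3, map_add]
    rfl
  rw [hsum]
  obtain ⟨μ, hμ0, hμ1, hμ⟩ := MM_conv (p := p) hc
  have hlim : Filter.Tendsto (fun k : ℕ => (MM PY) ^ k) Filter.atTop (nhds (EE p)) := by
    rw [tendsto_iff_norm_sub_tendsto_zero]
    exact squeeze_zero (fun _ => norm_nonneg _) hμ (tendsto_pow_atTop_nhds_zero_of_lt_one hμ0 hμ1)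
  have hlim2 : Filter.Tendsto (fun k : ℕ => S * (MM PY) ^ k + S2) Filter.atTop
      (nhds (S * EE p + S2)) := (hlim.const_mul S).add_const S2
  refine mem_closure_of_tendsto hlim2 (Filter.Eventually.of_forall (fun k => ?_))
  exact FP.add (FP.mul_T PY hS k) hS2

theorem main_mem_closure [DecidableEq X] [DecidableEq Y] (hc : Cover PX PY p)
    {T : L2 X →L[ℂ] L2 X} (hT : T ∈ closure (FP PX.dn)) :
    Uc p ∘L T ∘L ContinuousLinearMap.adjoint (Uc p) ∈ closure (FP PY.dn) := by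
  have hcont : Continuous (fun T : L2 X →L[ℂ] L2 X =>
      Uc p ∘L T ∘L ContinuousLinearMap.adjoint (Uc p)) := by
    fun_prop
  have h := map_mem_closure (t := closure (FP PY.dn)) hcont hT (fun T hT => main_mem hc hT)
  rwa [closure_closure] at h

end

end Pool.Agent.Helper47.Roe
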