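import Mathlib
import Pool.Agent.Helper47.Roe.Operator
import Pool.Agent.Helper47.Roe.Count

set_option autoImplicit false

namespace Pool.Agent.Helper47.Roe

open Finset

/-- both coordinates -/
noncomputable def phi : FF →* Gam × FreeGroup (Fin 2) := phi1.prod phi2

lemma phi_apply (w : FF) : phi w = (phi1 w, phi2 w) := rfl

/-- image of a ball -/
noncomputable def BB (n : ℕ) : Finset (Gam × FreeGroup (Fin 2)) := by
  classical exact (finite_ball n).toFinset.image phi

lemma mem_BB {n : ℕ} {w : FF} (h : w.norm ≤ n) : phi w ∈ BB n := by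
  classical
  unfold BB
  exact Finset.mem_image.2 ⟨w, by simpa using h, rfl⟩

/-- one level of the construction -/
structure Stage (n T : ℕ) where
  N : ℕ
  σ : Equiv.Perm (Fin (N + 1))
  Q : Type
  grp : Group Q
  fin : Finite Q
  r : Gam →* Q
  θ : FreeGroup (Fin 2) →* Gam
  surj : Function.Surjective r
  big : n * T < N + 1
  mono : T ≤ N + 1
  count : ∀ g : Fin (N + 1) → Gam × FreeGroup (Fin 2), g 0 = 1 →
      (∀ i : Fin N, g i.succ * (g i.castSucc)⁻¹ ∈ BB n) →
      (∀ i, g (σ i) * (g i)⁻¹ ∈ BB n) →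
      (∀ i, Set.ncard {j | g j = g i} ≤ n) → False
  free : ∀ w : FF, w.norm ≤ 2 * (N * n) + n → ∀ s : Q,
      r (phi1 w) * s * (r (θ (phi2 w)))⁻¹ = s → phi1 w = 1 ∧ phi2 w = 1

lemma stage_exists (n T : ℕ) : Nonempty (Stage n T) := by
  obtain ⟨N0, hN0⟩ := counting (BB n) n
  obtain ⟨σ, hσ⟩ := hN0 (max N0 (n * T + T)) (le_max_left _ _)
  obtain ⟨Q, g, hf, r, θ, hs, hfree⟩ :=
    exists_quotient (2 * ((max N0 (n * T + T)) * n) + n)
  have h1 := le_max_right N0 (n * T + T)
  exact ⟨⟨max N0 (n * T + T), σ, Q, g, hf, r, θ, hs, by omega, by omega, hσ, hfree⟩⟩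

/-- recursive choice -/
noncomputable def towerAux : (n : ℕ) → Σ T : ℕ, Stage n T
  | 0 => ⟨0, (stage_exists 0 0).some⟩
  | n + 1 => ⟨(towerAux n).1 + ((towerAux n).2.N + 1) * Nat.card (towerAux n).2.Q,
      (stage_exists (n + 1) _).some⟩

/-- lengths -/
noncomputable def tN (n : ℕ) : ℕ := (towerAux n).2.N

/-- finite groups -/
def tQ (n : ℕ) : Type := (towerAux n).2.Q

noncomputable instance (n : ℕ) : Group (tQ n) := (towerAux n).2.grp

instance (n : ℕ) : Finite (tQ n) := (towerAux n).2.fin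

/-- total size below -/
noncomputable def tT (n : ℕ) : ℕ := (towerAux n).1

lemma tT_zero : tT 0 = 0 := rfl

lemma tT_succ (n : ℕ) : tT (n + 1) = tT n + (tN n + 1) * Nat.card (tQ n) := rfl

lemma tT_eq (n : ℕ) : tT n = ∑ m ∈ range n, (tN m + 1) * Nat.card (tQ m) := by
  induction n with
  | zero => rw [tT_zero]; simp
  | succ n ih => rw [tT_succ, ih, Finset.sum_range_succ]

/-- the permutation at level n -/
noncomputable def tσ (n : ℕ) : Equiv.Perm (Fin (tN n + 1)) := (towerAux n).2.σ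

/-- the reduction -/
noncomputable def tr (n : ℕ) : Gam →* tQ n := (towerAux n).2.r

/-- the holonomy -/
noncomputable def tθ (n : ℕ) : FreeGroup (Fin 2) →* Gam := (towerAux n).2.θ

lemma tr_surj (n : ℕ) : Function.Surjective (tr n) := (towerAux n).2.surj

lemma t_big (n : ℕ) : n * tT n < tN n + 1 := (towerAux n).2.big

lemma tN_mono : Monotone tN := by
  apply monotone_nat_of_le_succ
  intro n
  have h1 : tT (n + 1) ≤ tN (n + 1) + 1 := (towerAux (n + 1)).2.mono
  have h2 := tT_succ n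
  have h3 : 0 < Nat.card (tQ n) := Nat.card_pos
  have h4 : tN n + 1 ≤ (tN n + 1) * Nat.card (tQ n) := Nat.le_mul_of_pos_right _ h3
  omega

lemma t_count (n : ℕ) : ∀ g : Fin (tN n + 1) → Gam × FreeGroup (Fin 2), g 0 = 1 →
      (∀ i : Fin (tN n), g i.succ * (g i.castSucc)⁻¹ ∈ BB n) →
      (∀ i, g (tσ n i) * (g i)⁻¹ ∈ BB n) →
      (∀ i, Set.ncard {j | g j = g i} ≤ n) → False := (towerAux n).2.count

lemma t_free (n : ℕ) : ∀ w : FF, w.norm ≤ 2 * (tN n * n) + n → ∀ s : tQ n,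
      tr n (phi1 w) * s * (tr n (tθ n (phi2 w)))⁻¹ = s → phi1 w = 1 ∧ phi2 w = 1 :=
  (towerAux n).2.free

/-- sum of transitive finite actions -/
def mkSys (Z : ℕ → Type) [hZ : ∀ n, Finite (Z n)] (a : ∀ n, FF →* Equiv.Perm (Z n))
    (tr : ∀ n s t, ∃ w, a n w s = t) : Sys (Σ n, Z n) where
  idx := Sigma.fst
  A := { toFun := fun w => Equiv.sigmaCongrRight (fun n => a n w)
         map_one' := by
           ext ⟨n, z⟩ : 1
           show (⟨n, a n 1 z⟩ : Σ n, Z n) = ⟨n, z⟩
           rw [map_one]; rfl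
         map_mul' := fun v w => by
           ext ⟨n, z⟩ : 1
           show (⟨n, a n (v * w) z⟩ : Σ n, Z n) = ⟨n, a n v (a n w z)⟩
           rw [map_mul]; rfl }
  inv := fun _ _ => rfl
  tr := by
    rintro ⟨n, s⟩ ⟨m, t⟩ h
    have h' : n = m := h
    subst h'
    obtain ⟨w, hw⟩ := tr n s t
    refine ⟨w, ?_⟩
    show (⟨n, a n w s⟩ : Σ n, Z n) = ⟨n, t⟩
    rw [hw]
  fin := fun m => by
    have h : {s : Σ n, Z n | s.1 = m} ⊆ Set.range (fun z : Z m => (⟨m, z⟩ : Σ n, Z n)) := by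
      rintro ⟨n, z⟩ h
      have h' : n = m := h
      subst h'
      exact ⟨z, rfl⟩
    exact (Set.finite_range _).subset h

/-- action of the second free group on a path -/
noncomputable def al (n : ℕ) : FreeGroup (Fin 2) →* Equiv.Perm (Fin (tN n + 1)) :=
  FreeGroup.lift ![finRotate (tN n + 1), tσ n]

/-- action on the first space -/
noncomputable def aX (n : ℕ) : FF →* Equiv.Perm (Fin (tN n + 1)) := (al n).comp phi2

/-- blocks of the second space -/
abbrev YB (n : ℕ) : Type := Fin (tN n + 1) × tQ n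

/-- twisted action -/
noncomputable def actY (n : ℕ) : MulAction FF (YB n) where
  smul w z := (al n (phi2 w) z.1, tr n (phi1 w) * z.2 * (tr n (tθ n (phi2 w)))⁻¹)
  one_smul z := by
    show (al n (phi2 1) z.1, tr n (phi1 1) * z.2 * (tr n (tθ n (phi2 1)))⁻¹) = z
    simp
  mul_smul v w z := by
    show (al n (phi2 (v * w)) z.1, tr n (phi1 (v * w)) * z.2 * (tr n (tθ n (phi2 (v * w))))⁻¹) =
      (al n (phi2 v) (al n (phi2 w) z.1), tr n (phi1 v) *
        (tr n (phi1 w) * z.2 * (tr n (tθ n (phi2 w)))⁻¹) * (tr n (tθ n (phi2 v)))⁻¹)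
    simp only [map_mul, Equiv.Perm.mul_apply, mul_inv_rev, mul_assoc]

/-- action on the second space -/
noncomputable def aY (n : ℕ) : FF →* Equiv.Perm (YB n) := @MulAction.toPermHom FF (YB n) _ (actY n)

lemma aY_apply (n : ℕ) (w : FF) (z : YB n) :
    aY n w z = (al n (phi2 w) z.1, tr n (phi1 w) * z.2 * (tr n (tθ n (phi2 w)))⁻¹) := rfl

lemma rotate_pow (N k : ℕ) (i : Fin (N + 1)) :
    (((finRotate (N + 1)) ^ k) i).val = (i.val + k) % (N + 1) := by
  induction k with
  | zero => simp [Nat.mod_eq_of_lt i.isLt]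
  | succ k ih =>
    rw [pow_succ', Equiv.Perm.mul_apply, finRotate_apply, Fin.val_add, ih, Fin.val_one',
      Nat.mod_add_mod, Nat.add_mod_mod, add_assoc]

lemma al_of0 (n : ℕ) : al n (FreeGroup.of 0) = finRotate (tN n + 1) := by
  rw [al, FreeGroup.lift_apply_of]; rfl

lemma al_of1 (n : ℕ) : al n (FreeGroup.of 1) = tσ n := by
  rw [al, FreeGroup.lift_apply_of]; rfl

lemma phi2_inr (j : Fin 2) : phi2 (FreeGroup.of (Sum.inr j)) = FreeGroup.of j := by
  simp [phi2]

lemma phi1_inr (j : Fin 2) : phi1 (FreeGroup.of (Sum.inr j)) = 1 := by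
  simp [phi1]

lemma phi1_inl (i : Fin 3) : phi1 (FreeGroup.of (Sum.inl i)) = xg i := by
  simp [phi1]

lemma phi2_inl (i : Fin 3) : phi2 (FreeGroup.of (Sum.inl i)) = 1 := by
  simp [phi2]

lemma aX_trans (n : ℕ) (i j : Fin (tN n + 1)) : ∃ w, aX n w i = j := by
  refine ⟨(FreeGroup.of (Sum.inr 0)) ^ (j.val + (tN n + 1) - i.val), ?_⟩
  show al n (phi2 _) i = j
  rw [map_pow, phi2_inr, map_pow, al_of0]
  apply Fin.ext
  rw [rotate_pow]
  have h1 : i.val + (j.val + (tN n + 1) - i.val) = j.val + (tN n + 1) := by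
    have := i.isLt
    omega
  rw [h1, Nat.add_mod_right, Nat.mod_eq_of_lt j.isLt]

/-- inclusion of the free group on the expander letters -/
def inc : FreeGroup (Fin 3) →* FF := FreeGroup.map Sum.inl

lemma phi2_inc (u : FreeGroup (Fin 3)) : phi2 (inc u) = 1 := by
  have : phi2.comp inc = 1 := by
    apply FreeGroup.ext_hom
    intro i
    simp [inc, phi2]
  exact DFunLike.congr_fun this u

lemma phi1_inc_surj (γ : Gam) : ∃ u : FreeGroup (Fin 3), phi1 (inc u) = γ := by
  have h1 : phi1.comp inc = FreeGroup.lift xg := by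
    apply FreeGroup.ext_hom
    intro i
    simp [inc, phi1]
  have h2 : (FreeGroup.lift xg).range = ⊤ := by
    rw [FreeGroup.range_lift_eq_closure]
    have h3 : Set.range xg = ((↑) : Gam → SL3) ⁻¹' (Set.range gen3) := by
      ext x
      constructor
      · rintro ⟨i, rfl⟩
        exact ⟨i, rfl⟩
      · rintro ⟨i, hi⟩
        exact ⟨i, Subtype.ext hi⟩
    rw [h3]
    exact Subgroup.closure_closure_coe_preimage
  have h4 : γ ∈ (FreeGroup.lift xg).range := by rw [h2]; trivial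
  obtain ⟨u, hu⟩ := h4
  exact ⟨u, by rw [← hu, ← h1]; rfl⟩

lemma aY_trans (n : ℕ) (s t : YB n) : ∃ w, aY n w s = t := by
  obtain ⟨w, hw⟩ := aX_trans n s.1 t.1
  obtain ⟨γ, hγ⟩ := tr_surj n (t.2 * (aY n w s).2⁻¹)
  obtain ⟨u, hu⟩ := phi1_inc_surj γ
  refine ⟨inc u * w, ?_⟩
  rw [map_mul, Equiv.Perm.mul_apply, aY_apply, phi2_inc, hu, hγ]
  simp only [map_one, inv_one, mul_one, Equiv.Perm.one_apply, inv_mul_cancel_right]
  exact Prod.ext hw rfl

/-- the first space -/
abbrev XS : Type := Σ n, Fin (tN n + 1)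

/-- the second space -/
abbrev YS : Type := Σ n, YB n

/-- first system -/
noncomputable def PX : Sys XS := mkSys _ aX aX_trans

/-- second system -/
noncomputable def PY : Sys YS := mkSys _ aY aY_trans

lemma PX_A (w : FF) (n : ℕ) (i : Fin (tN n + 1)) : PX.A w ⟨n, i⟩ = ⟨n, aX n w i⟩ := rfl

lemma PY_A (w : FF) (n : ℕ) (z : YB n) : PY.A w ⟨n, z⟩ = ⟨n, aY n w z⟩ := rfl

/-- the projection -/
def pr : YS → XS := fun y => ⟨y.1, y.2.1⟩

instance (x : XS) : Finite {y // pr y = x} := by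
  have h : Finite {y : YS // y.1 = x.1} := PY.fin x.1
  refine Finite.of_injective (β := {y : YS // y.1 = x.1})
    (fun y => ⟨y.1, congrArg Sigma.fst y.2⟩) ?_
  intro y y' h
  exact Subtype.ext (congrArg (fun z : {y : YS // y.1 = x.1} => z.1) h)

instance (x : XS) : Nonempty {y // pr y = x} :=
  ⟨⟨⟨x.1, (x.2, 1)⟩, rfl⟩⟩

/-- left multiplication action -/
noncomputable def actG (n : ℕ) : MulAction Gam (YB n) where
  smul g z := (z.1, tr n g * z.2)
  one_smul z := by
    show (z.1, tr n 1 * z.2) = z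
    simp
  mul_smul v w z := by
    show (z.1, tr n (v * w) * z.2) = (z.1, tr n v * (tr n w * z.2))
    rw [map_mul, mul_assoc]

/-- the action of the expander group -/
noncomputable def be : Gam →* Equiv.Perm YS where
  toFun g := Equiv.sigmaCongrRight (fun n => @MulAction.toPermHom Gam (YB n) _ (actG n) g)
  map_one' := by
    ext ⟨n, z⟩ : 1
    show (⟨n, @MulAction.toPermHom Gam (YB n) _ (actG n) 1 z⟩ : YS) = ⟨n, z⟩
    rw [map_one]; rfl
  map_mul' := fun v w => by
    ext ⟨n, z⟩ : 1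
    show (⟨n, @MulAction.toPermHom Gam (YB n) _ (actG n) (v * w) z⟩ : YS) =
      ⟨n, @MulAction.toPermHom Gam (YB n) _ (actG n) v (@MulAction.toPermHom Gam (YB n) _ (actG n) w z)⟩
    rw [map_mul]; rfl

lemma be_xg (i : Fin 3) : be (xg i) = PY.A (FreeGroup.of (Sum.inl i)) := by
  ext ⟨n, z⟩ : 1
  show (⟨n, (z.1, tr n (xg i) * z.2)⟩ : YS) = ⟨n, aY n _ z⟩
  rw [aY_apply, phi1_inl, phi2_inl]
  simp

lemma xg_pow (i : Fin 3) : xg i ^ 5 = 1 := Subtype.ext (gen3_pow i)

lemma xg_heis (i j : Fin 3) (h : i ≠ j) : Heis (be (xg i)) (be (xg j)) := by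
  have hz : Heis (xg i) (xg j) := by
    obtain ⟨z, h1, h2, h3⟩ := gen3_heis i j h
    have hz : z ∈ Gam := by
      have : z = gen3 i * gen3 j * (gen3 j * gen3 i)⁻¹ := by
        rw [h3]; group
      rw [this]
      exact Gam.mul_mem (Gam.mul_mem (gen3_mem i) (gen3_mem j))
        (Gam.inv_mem (Gam.mul_mem (gen3_mem j) (gen3_mem i)))
    exact ⟨⟨z, hz⟩, Subtype.ext h1, Subtype.ext h2, Subtype.ext h3⟩
  exact heis_map be hz

lemma cover : Cover PX PY pr where
  equi w y := by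
    obtain ⟨n, z⟩ := y
    rfl
  five i := by
    rw [← be_xg, ← map_pow, xg_pow, map_one]
  heis i j h := by
    rw [← be_xg, ← be_xg]
    exact xg_heis i j h
  triv i x := by
    obtain ⟨n, z⟩ := x
    show (⟨n, al n (phi2 (FreeGroup.of (Sum.inl i))) z⟩ : XS) = ⟨n, z⟩
    rw [phi2_inl, map_one]; rfl
  trans h hh := by
    have h1 : ∀ u : FreeGroup (Fin 3), ∀ y, h (PY.A (inc u) y) = h y := by
      intro u
      induction u using FreeGroup.induction_on with
      | C1 => intro y; simp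
      | of i => intro y; exact hh i y
      | inv_of i ih =>
        intro y
        rw [map_inv, map_inv]
        have h2 := ih ((PY.A (inc (FreeGroup.of i)))⁻¹ y)
        have h3 : (PY.A (inc (FreeGroup.of i))) ((PY.A (inc (FreeGroup.of i)))⁻¹ y) = y :=
          (PY.A (inc (FreeGroup.of i))).apply_symm_apply y
        rw [h3] at h2
        exact h2.symm
      | mul u v hu hv =>
        intro y
        rw [map_mul, map_mul, Equiv.Perm.mul_apply, hu, hv]
    rintro ⟨n, i, s⟩ ⟨m, j, t⟩ hp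
    have e1 : n = m := congrArg Sigma.fst hp
    subst e1
    have e2 : i = j := by
      have : (⟨n, i⟩ : XS) = ⟨n, j⟩ := hp
      simpa using this
    subst e2
    obtain ⟨γ, hγ⟩ := tr_surj n (t * s⁻¹)
    obtain ⟨u, hu⟩ := phi1_inc_surj γ
    rw [← h1 u ⟨n, i, s⟩, PY_A, aY_apply, phi2_inc, hu, hγ]
    simp

end Pool.Agent.Helper47.Roe
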