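import Mathlib
import Pool.Agent.Helper47.Roe.Tower

set_option autoImplicit false

namespace Pool.Agent.Helper47.Roe

open Finset

lemma below_card (n : ℕ) : {y : YS | y.1 < n}.Finite ∧ {y : YS | y.1 < n}.ncard ≤ tT n := by
  classical
  have : ∀ m, Fintype (YB m) := fun m => Fintype.ofFinite _
  have hsub : {y : YS | y.1 < n} =
      ((range n).sigma (fun m => (univ : Finset (YB m))) : Finset (Σ m, YB m)) := by
    ext ⟨m, z⟩
    simp
  constructor
  · rw [hsub]; exact Finset.finite_toSet _
  · rw [hsub, Set.ncard_coe_finset, Finset.card_sigma, tT_eq]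
    apply Finset.sum_le_sum
    intro m _
    rw [Finset.card_univ, ← Nat.card_eq_fintype_card, Nat.card_prod, Nat.card_eq_fintype_card,
      Fintype.card_fin]

lemma PY_idx (y : YS) : PY.idx y = y.1 := rfl

lemma near_idx {n : ℕ} {s t : YS} (h : PY.dn s t < n) (hs : n ≤ s.1 ∨ n ≤ t.1) : s.1 = t.1 := by
  by_contra hne
  have hne' : ¬ PY.idx s = PY.idx t := hne
  rw [Sys.dn, if_neg hne'] at h
  have e1 := PY.le_D (PY.idx s)
  have e2 := PY.le_D (PY.idx t)
  have f1 : s.1 = PY.idx s := rfl
  have f2 : t.1 = PY.idx t := rfl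
  rw [f1, f2] at hs
  rcases hs with h1 | h1 <;> omega

lemma aY_congr {m : ℕ} {v w : FF} (h : phi v = phi w) (z : YB m) : aY m v z = aY m w z := by
  have h1 : phi1 v = phi1 w := congrArg Prod.fst h
  have h2 : phi2 v = phi2 w := congrArg Prod.snd h
  rw [aY_apply, aY_apply, h1, h2]

theorem no_map (f : XS → YS) (L K : ℕ)
    (hL : ∀ x x' : XS, PX.dn x x' ≤ 1 → PY.dn (f x) (f x') ≤ L)
    (hK : ∀ y, (f ⁻¹' {y}).Finite ∧ (f ⁻¹' {y}).ncard ≤ K) : False := by
  classical
  set n := max L K + 1 with hn
  have hLn : L < n := by have := le_max_left L K; omega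
  have hKn : K ≤ n := by have := le_max_right L K; omega
  set F : Fin (tN n + 1) → YS := fun i => f ⟨n, i⟩ with hF
  have hfib : ∀ i, Set.ncard {j | F j = F i} ≤ K := by
    intro i
    refine le_trans ?_ (hK (F i)).2
    refine Set.ncard_le_ncard_of_injOn (fun j => (⟨n, j⟩ : XS)) (fun j hj => hj) ?_ (hK (F i)).1
    intro a _ b _ hab
    simpa using hab
  have hstep1 : ∀ i : Fin (tN n), PY.dn (F i.castSucc) (F i.succ) ≤ L := by
    intro i
    apply hL
    have h1 := PX.dn_act (FreeGroup.of (Sum.inr 0)) ⟨n, i.castSucc⟩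
    rw [FreeGroup.norm_of] at h1
    have h2 : PX.A (FreeGroup.of (Sum.inr 0)) ⟨n, i.castSucc⟩ = ⟨n, i.succ⟩ := by
      show (⟨n, al n (phi2 (FreeGroup.of (Sum.inr 0))) i.castSucc⟩ : XS) = ⟨n, i.succ⟩
      rw [phi2_inr, al_of0, finRotate_apply, Fin.coeSucc_eq_succ]
    rwa [h2] at h1
  have hstep2 : ∀ i : Fin (tN n + 1), PY.dn (F i) (F (tσ n i)) ≤ L := by
    intro i
    apply hL
    have h1 := PX.dn_act (FreeGroup.of (Sum.inr 1)) ⟨n, i⟩
    rw [FreeGroup.norm_of] at h1
    have h2 : PX.A (FreeGroup.of (Sum.inr 1)) ⟨n, i⟩ = ⟨n, tσ n i⟩ := by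
      show (⟨n, al n (phi2 (FreeGroup.of (Sum.inr 1))) i⟩ : XS) = ⟨n, tσ n i⟩
      rw [phi2_inr, al_of1]
    rwa [h2] at h1
  have hconf : ∀ i : Fin (tN n + 1), (n ≤ (F i).1 ∨ n ≤ (F 0).1) → (F i).1 = (F 0).1 := by
    intro i
    induction i using Fin.induction with
    | zero => intro _; rfl
    | succ i ih =>
      intro h
      have h1 : PY.dn (F i.castSucc) (F i.succ) < n := lt_of_le_of_lt (hstep1 i) hLn
      rcases h with h | h
      · have h2 := near_idx h1 (Or.inr h)
        rw [← h2]
        exact ih (Or.inl (by rw [h2]; exact h))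
      · have h2 := ih (Or.inr h)
        have h3 := near_idx h1 (Or.inl (by rw [h2]; exact h))
        rw [← h3, h2]
  by_cases hcase : ∃ i, n ≤ (F i).1
  · -- all in one far block
    obtain ⟨i0, hi0⟩ := hcase
    have h0 : n ≤ (F 0).1 := by
      rw [← hconf i0 (Or.inl hi0)]; exact hi0
    have hall : ∀ i, (F i).1 = (F 0).1 := fun i => hconf i (Or.inr h0)
    have hw : ∀ s t : YS, s.1 = t.1 → PY.dn s t ≤ L → ∃ w : FF, w.norm ≤ L ∧ PY.A w s = t := by
      intro s t hst hd
      have hst' : PY.idx s = PY.idx t := hst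
      obtain ⟨w, hw1, hw2⟩ := PY.gd_spec hst'
      refine ⟨w, ?_, hw2⟩
      rw [hw1]
      rwa [Sys.dn, if_pos hst'] at hd
    have hw1 : ∀ i : Fin (tN n), ∃ w : FF, w.norm ≤ L ∧ PY.A w (F i.castSucc) = F i.succ :=
      fun i => hw _ _ ((hall _).trans (hall _).symm) (hstep1 i)
    have hu1 : ∀ i : Fin (tN n + 1), ∃ w : FF, w.norm ≤ L ∧ PY.A w (F i) = F (tσ n i) :=
      fun i => hw _ _ ((hall _).trans (hall _).symm) (hstep2 i)
    choose w hwn hwA using hw1
    choose u hun huA using hu1
    let v : Fin (tN n + 1) → FF := Fin.induction 1 (fun i x => w i * x)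
    have hv0 : v 0 = 1 := rfl
    have hvs : ∀ i : Fin (tN n), v i.succ = w i * v i.castSucc := fun i => by
      simp only [v, Fin.induction_succ]
    have hvn : ∀ i : Fin (tN n + 1), (v i).norm ≤ i.val * L := by
      intro i
      induction i using Fin.induction with
      | zero => rw [hv0, FreeGroup.norm_one]; exact Nat.zero_le _
      | succ i ih =>
        rw [hvs]
        refine (FreeGroup.norm_mul_le _ _).trans ?_
        have := hwn i
        rw [Fin.val_succ, add_mul, one_mul]
        rw [Fin.val_castSucc] at ih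
        omega
    have hvA : ∀ i, PY.A (v i) (F 0) = F i := by
      intro i
      induction i using Fin.induction with
      | zero => rw [hv0, map_one]; rfl
      | succ i ih => rw [hvs, map_mul, Equiv.Perm.mul_apply, ih, hwA]
    -- the closing words
    have hclose : ∀ i, phi (v (tσ n i)) = phi (u i) * phi (v i) := by
      intro i
      set z : FF := (v (tσ n i))⁻¹ * (u i * v i) with hz
      have hzn : z.norm ≤ 2 * (tN (F 0).1 * (F 0).1) + (F 0).1 := by
        have e1 : z.norm ≤ (v (tσ n i)).norm + ((u i).norm + (v i).norm) := by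
          refine (FreeGroup.norm_mul_le _ _).trans ?_
          rw [FreeGroup.norm_inv_eq]
          exact Nat.add_le_add_left (FreeGroup.norm_mul_le _ _) _
        have e2 : (v (tσ n i)).norm ≤ tN n * L :=
          (hvn _).trans (Nat.mul_le_mul_right _ (Nat.lt_succ_iff.1 (tσ n i).isLt))
        have e3 : (v i).norm ≤ tN n * L :=
          (hvn _).trans (Nat.mul_le_mul_right _ (Nat.lt_succ_iff.1 i.isLt))
        have e4 : tN n * L ≤ tN (F 0).1 * (F 0).1 :=
          Nat.mul_le_mul (tN_mono h0) (hLn.le.trans h0)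
        have e5 := hun i
        have e6 : L ≤ (F 0).1 := hLn.le.trans h0
        omega
      have hzA : PY.A z (F 0) = F 0 := by
        rw [hz, map_mul, Equiv.Perm.mul_apply, map_mul, Equiv.Perm.mul_apply, hvA, huA, ← hvA (tσ n i),
          map_inv]
        exact (PY.A (v (tσ n i))).symm_apply_apply _
      have hfree : phi1 z = 1 ∧ phi2 z = 1 := by
        generalize F 0 = y0 at hzA hzn
        obtain ⟨m, j, s⟩ := y0
        rw [PY_A] at hzA
        have e1 : aY m z (j, s) = (j, s) := by simpa using hzA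
        rw [aY_apply] at e1
        exact t_free m z hzn s (congrArg Prod.snd e1)
      have h1 : phi z = 1 := Prod.ext hfree.1 hfree.2
      rw [hz, map_mul, map_inv, map_mul] at h1
      exact (inv_mul_eq_one.1 h1)
    refine t_count n (fun i => phi (v i)) ?_ ?_ ?_ ?_
    · rw [hv0, map_one]
    · intro i
      rw [hvs, map_mul, mul_inv_cancel_right]
      exact mem_BB ((hwn i).trans hLn.le)
    · intro i
      show phi (v (tσ n i)) * (phi (v i))⁻¹ ∈ BB n
      rw [hclose, mul_inv_cancel_right]
      exact mem_BB ((hun i).trans hLn.le)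
    · intro i
      refine le_trans (Set.ncard_le_ncard ?_ (Set.toFinite _)) ((hfib i).trans hKn)
      intro j hj
      have hj' : phi (v j) = phi (v i) := hj
      show F j = F i
      rw [← hvA j, ← hvA i]
      generalize F 0 = y0
      obtain ⟨m, z⟩ := y0
      rw [PY_A, PY_A, aY_congr hj']
  · -- all in small blocks
    push Not at hcase
    have h1 : (univ : Finset (Fin (tN n + 1))).card ≤ K * (univ.image F).card := by
      apply Finset.card_le_mul_card_image
      intro a ha
      obtain ⟨i, _, rfl⟩ := Finset.mem_image.1 ha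
      have h2 := hfib i
      rw [Set.ncard_eq_toFinset_card'] at h2
      refine le_trans (le_of_eq ?_) h2
      congr 1
      ext j
      simp
    have h2 : (univ.image F).card ≤ tT n := by
      refine le_trans ?_ (below_card n).2
      rw [← Set.ncard_coe_finset]
      refine Set.ncard_le_ncard ?_ (below_card n).1
      intro y hy
      obtain ⟨i, _, rfl⟩ := Finset.mem_image.1 (Finset.mem_coe.1 hy)
      exact hcase i
    have h3 := t_big n
    rw [Finset.card_univ, Fintype.card_fin] at h1
    have h4 : K * (univ.image F).card ≤ n * tT n := Nat.mul_le_mul hKn h2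
    omega

end Pool.Agent.Helper47.Roe
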